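import Mathlib

/-!
# Words in the letters `u_1, u_{-1}, v_1, v_{-1}`: definitions and the undistortedness lemma
-/

set_option autoImplicit false

namespace Pool.Agent.OW

open Matrix

/-- 2 x 2 integer matrices -/
abbrev Mat := Matrix (Fin 2) (Fin 2) ℤ

/-- The letters `u_1, u_{-1}, v_1, v_{-1}` over a commutative ring. -/
def letter (R : Type) [CommRing R] : Fin 4 → Matrix (Fin 2) (Fin 2) R :=
  ![!![1, 1; 0, 1], !![1, -1; 0, 1], !![1, 0; 1, 1], !![1, 0; -1, 1]]

/-- The value of a word. -/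
def ev (R : Type) [CommRing R] (w : List (Fin 4)) : Matrix (Fin 2) (Fin 2) R :=
  (w.map (letter R)).prod

theorem ev_nil (R : Type) [CommRing R] : ev R [] = 1 := by simp [ev]

theorem ev_append (R : Type) [CommRing R] (v w : List (Fin 4)) : ev R (v ++ w) = ev R v * ev R w := by
  simp [ev]

theorem ev_single (R : Type) [CommRing R] (s : Fin 4) : ev R [s] = letter R s := by simp [ev]

theorem det_letter (R : Type) [CommRing R] (s : Fin 4) : (letter R s).det = 1 := by
  fin_cases s <;> simp [letter, Matrix.det_fin_two]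

theorem det_ev (R : Type) [CommRing R] (w : List (Fin 4)) : (ev R w).det = 1 := by
  induction w with
  | nil => simp [ev]
  | cons s w ih =>
    have : ev R (s :: w) = letter R s * ev R w := by simp [ev]
    rw [this, Matrix.det_mul, det_letter, ih, one_mul]

/-- the inverse letter -/
def ivl : Fin 4 → Fin 4 := ![1, 0, 3, 2]

/-- the inverse word -/
def iv (w : List (Fin 4)) : List (Fin 4) := (w.map ivl).reverse

theorem iv_length (w : List (Fin 4)) : (iv w).length = w.length := by simp [iv]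

theorem letter_ivl (R : Type) [CommRing R] (s : Fin 4) : letter R (ivl s) * letter R s = 1 := by
  fin_cases s <;> ext i j <;> fin_cases i <;> fin_cases j <;> simp [letter, ivl]

theorem letter_ivl' (R : Type) [CommRing R] (s : Fin 4) : letter R s * letter R (ivl s) = 1 := by
  fin_cases s <;> ext i j <;> fin_cases i <;> fin_cases j <;> simp [letter, ivl]

theorem ev_iv_mul (R : Type) [CommRing R] (w : List (Fin 4)) : ev R (iv w) * ev R w = 1 := by
  induction w with
  | nil => simp [ev, iv]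
  | cons s w ih =>
    have h1 : iv (s :: w) = iv w ++ [ivl s] := by simp [iv]
    have h2 : ev R (s :: w) = letter R s * ev R w := by simp [ev]
    rw [h1, h2, ev_append, ev_single, Matrix.mul_assoc, ← Matrix.mul_assoc (letter R (ivl s)),
      letter_ivl, Matrix.one_mul, ih]

theorem ev_mul_iv (R : Type) [CommRing R] (w : List (Fin 4)) : ev R w * ev R (iv w) = 1 := by
  induction w with
  | nil => simp [ev, iv]
  | cons s w ih =>
    have h1 : iv (s :: w) = iv w ++ [ivl s] := by simp [iv]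
    have h2 : ev R (s :: w) = letter R s * ev R w := by simp [ev]
    rw [h1, h2, ev_append, ev_single, ← Matrix.mul_assoc, Matrix.mul_assoc (letter R s), ih,
      Matrix.mul_one, letter_ivl']

theorem ev_cast (R : Type) [CommRing R] (w : List (Fin 4)) :
    (ev ℤ w).map (Int.cast : ℤ → R) = ev R w := by
  induction w with
  | nil =>
    simp only [ev, List.map_nil, List.prod_nil]
    exact Matrix.map_one _ (by simp) (by simp)
  | cons s w ih =>
    have h2 : ∀ (T : Type) [CommRing T], ev T (s :: w) = letter T s * ev T w := by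
      intro T _; simp [ev]
    rw [h2 ℤ, h2 R, ← ih]
    have h3 : (letter R s) = (letter ℤ s).map (Int.cast : ℤ → R) := by
      fin_cases s <;> ext i j <;> fin_cases i <;> fin_cases j <;> simp [letter]
    rw [h3]
    exact Matrix.map_mul (f := Int.castRingHom R)

/-- the matrix `2 I` (for `c = 0`) or `2 u_{1/2}` (for `c = 1`) -/
def CC (R : Type) [CommRing R] (c : R) : Matrix (Fin 2) (Fin 2) R := !![2, c; 0, 2]

/-! ### The undistortedness lemma -/

theorem step_num (a b c d k : ℝ) :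
    (a * c + (k * a + b) * (k * c + d)) * (c ^ 2 + d ^ 2) - (a * c + b * d) * (c ^ 2 + (k * c + d) ^ 2) =
      (a * d - b * c) * (k * (k * c * d + d ^ 2 - c ^ 2)) := by ring

theorem step_bound (a b c d k r D m : ℝ) (hk : |k| ≤ 1)
    (hS : 0 < c ^ 2 + d ^ 2) (h : |a * c + b * d| ≤ r * (c ^ 2 + d ^ 2)) (hD : |a * d - b * c| ≤ D)
    (hm : 0 < m) (hS' : m ≤ c ^ 2 + (k * c + d) ^ 2) :
    |a * c + (k * a + b) * (k * c + d)| ≤ (r + 3 / 2 * |k| * D / m) * (c ^ 2 + (k * c + d) ^ 2) := by
  have hD0 : 0 ≤ D := (abs_nonneg _).trans hD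
  have h1 : |k * c * d + d ^ 2 - c ^ 2| ≤ 3 / 2 * (c ^ 2 + d ^ 2) := by
    have hk' := abs_le.1 hk
    rw [abs_le]
    constructor
    · nlinarith [sq_nonneg (c - d), sq_nonneg (c + d), mul_nonneg (by linarith : 0 ≤ 1 - k) (sq_nonneg (c - d)),
        mul_nonneg (by linarith : 0 ≤ 1 + k) (sq_nonneg (c + d)),
        mul_nonneg (by linarith : 0 ≤ 1 - k) (sq_nonneg (c + d)),
        mul_nonneg (by linarith : 0 ≤ 1 + k) (sq_nonneg (c - d))]
    · nlinarith [sq_nonneg (c - d), sq_nonneg (c + d), mul_nonneg (by linarith : 0 ≤ 1 - k) (sq_nonneg (c - d)),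
        mul_nonneg (by linarith : 0 ≤ 1 + k) (sq_nonneg (c + d)),
        mul_nonneg (by linarith : 0 ≤ 1 - k) (sq_nonneg (c + d)),
        mul_nonneg (by linarith : 0 ≤ 1 + k) (sq_nonneg (c - d))]
  have h2 : |a * c + (k * a + b) * (k * c + d)| * (c ^ 2 + d ^ 2) ≤
      (r * (c ^ 2 + (k * c + d) ^ 2) + 3 / 2 * |k| * D) * (c ^ 2 + d ^ 2) := by
    have e1 : |a * c + (k * a + b) * (k * c + d)| * (c ^ 2 + d ^ 2) =
        |(a * c + b * d) * (c ^ 2 + (k * c + d) ^ 2) + (a * d - b * c) * (k * (k * c * d + d ^ 2 - c ^ 2))| := by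
      rw [← step_num a b c d k, ← abs_of_pos hS, ← abs_mul]
      congr 1
      rw [abs_of_pos hS]
      ring
    rw [e1]
    have hS'0 : 0 ≤ c ^ 2 + (k * c + d) ^ 2 := by positivity
    calc |(a * c + b * d) * (c ^ 2 + (k * c + d) ^ 2) + (a * d - b * c) * (k * (k * c * d + d ^ 2 - c ^ 2))|
        ≤ |(a * c + b * d) * (c ^ 2 + (k * c + d) ^ 2)| + |(a * d - b * c) * (k * (k * c * d + d ^ 2 - c ^ 2))| :=
          abs_add_le _ _
      _ = |a * c + b * d| * (c ^ 2 + (k * c + d) ^ 2) + |a * d - b * c| * (|k| * |k * c * d + d ^ 2 - c ^ 2|) := by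
          rw [abs_mul, abs_mul, abs_mul, abs_of_nonneg hS'0]
      _ ≤ (r * (c ^ 2 + d ^ 2)) * (c ^ 2 + (k * c + d) ^ 2) + D * (|k| * (3 / 2 * (c ^ 2 + d ^ 2))) := by
          have := mul_le_mul_of_nonneg_right h hS'0
          have h3 : |a * d - b * c| * (|k| * |k * c * d + d ^ 2 - c ^ 2|) ≤ D * (|k| * (3 / 2 * (c ^ 2 + d ^ 2))) := by
            gcongr
          linarith
      _ = (r * (c ^ 2 + (k * c + d) ^ 2) + 3 / 2 * |k| * D) * (c ^ 2 + d ^ 2) := by ring
  have h3 := le_of_mul_le_mul_right h2 hS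
  have h4 : 3 / 2 * |k| * D ≤ 3 / 2 * |k| * D / m * (c ^ 2 + (k * c + d) ^ 2) := by
    have : 3 / 2 * |k| * D = 3 / 2 * |k| * D / m * m := by field_simp
    calc 3 / 2 * |k| * D = 3 / 2 * |k| * D / m * m := this
      _ ≤ 3 / 2 * |k| * D / m * (c ^ 2 + (k * c + d) ^ 2) := by
          apply mul_le_mul_of_nonneg_left hS'
          positivity
  calc |a * c + (k * a + b) * (k * c + d)| ≤ r * (c ^ 2 + (k * c + d) ^ 2) + 3 / 2 * |k| * D := h3
    _ ≤ _ := by rw [add_mul]; linarith

end Pool.Agent.OW
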