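import Pool.Agent.Lib.MP_55cac8_lc.Mg.G005

/-!
# Common frames and common cores
-/

set_option autoImplicit false

namespace Pool.Agent.OW

open Matrix

/-- `u_{1/2}` modulo `n` -/
def uh (n : ℕ) : Matrix (Fin 2) (Fin 2) (ZMod n) := !![1, (((n + 1) / 2 : ℕ) : ZMod n); 0, 1]

theorem two_half {n : ℕ} (hn : Odd n) : (2 : ZMod n) * (((n + 1) / 2 : ℕ) : ZMod n) = 1 := by
  obtain ⟨k, rfl⟩ := hn
  have h1 : (2 * k + 1 + 1) / 2 = k + 1 := by omega
  rw [h1]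
  have h2 := ZMod.natCast_self (2 * k + 1)
  push_cast at h2 ⊢
  linear_combination h2

theorem CC_one_mod {n : ℕ} (hn : Odd n) : CC (ZMod n) 1 = (2 : ℤ) • uh n := by
  have h := two_half hn
  ext i j
  rcases (by decide : ∀ k : Fin 2, k = 0 ∨ k = 1) i with rfl | rfl <;>
    rcases (by decide : ∀ k : Fin 2, k = 0 ∨ k = 1) j with rfl | rfl <;> simp [CC, uh]
  exact h.symm

/-- reduction modulo `n` -/
def red (n : ℕ) : Mat →+* Matrix (Fin 2) (Fin 2) (ZMod n) := (Int.castRingHom (ZMod n)).mapMatrix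

theorem red_apply (n : ℕ) (M : Mat) : red n M = M.map (Int.cast : ℤ → ZMod n) := rfl

theorem red_ev (n : ℕ) (w : List (Fin 4)) : red n (ev ℤ w) = ev (ZMod n) w := ev_cast _ _

theorem red_CC_one (n : ℕ) : red n (CC ℤ 1) = CC (ZMod n) 1 := by
  rw [red_apply]
  ext i j
  rcases (by decide : ∀ k : Fin 2, k = 0 ∨ k = 1) i with rfl | rfl <;>
    rcases (by decide : ∀ k : Fin 2, k = 0 ∨ k = 1) j with rfl | rfl <;> simp [CC]

theorem red_eq {n : ℕ} {A B : Mat} (h : red n A = red n B) (i j : Fin 2) :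
    (n : ℤ) ∣ A i j - B i j := by
  rw [red_apply, red_apply] at h
  have h1 := congrFun (congrFun h i) j
  rw [Matrix.map_apply, Matrix.map_apply] at h1
  exact (ZMod.intCast_eq_intCast_iff_dvd_sub _ _ _).1 h1.symm

/-- `M` is `u_{1/2}` modulo `n`, up to sign -/
def isU (n : ℕ) (M : Matrix (Fin 2) (Fin 2) (ZMod n)) : Prop := M = uh n ∨ M = -uh n

theorem isU_iff {n : ℕ} {M : Matrix (Fin 2) (Fin 2) (ZMod n)} (h : isU n M) :
    ∃ e : ℤ, (e = 1 ∨ e = -1) ∧ uh n = e • M := by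
  rcases h with h | h
  · exact ⟨1, Or.inl rfl, by rw [h, one_smul]⟩
  · exact ⟨-1, Or.inr rfl, by rw [h]; simp⟩

theorem Bd_smul {e : ℤ} (he : e = 1 ∨ e = -1) {M : Mat} {h : ℝ} (hM : Bd M h) : Bd (e • M) h := by
  intro i j
  rw [Matrix.smul_apply, smul_eq_mul]
  push_cast
  rw [abs_mul]
  have : |(e:ℝ)| = 1 := by rcases he with rfl | rfl <;> simp
  rw [this, one_mul]
  exact hM i j

theorem frame_aux1 {n : ℕ} (hn : Odd n) (X Z : List (Fin 4)) (V : Mat)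
    (h : isU n (ev (ZMod n) X * red n V * ev (ZMod n) Z)) {h₀ : ℝ} (hV : Bd V h₀) (h0 : 0 ≤ h₀) :
    ∃ R : Mat, Bd R (5 * h₀) ∧
      (∀ i j, (n : ℤ) ∣ (ev ℤ (iv X) * CC ℤ 1 * ev ℤ (iv Z)) i j - R i j) ∧
      ev ℤ (iv X) * CC ℤ 1 * ev ℤ (iv Z) ≠ R := by
  obtain ⟨e, he, hu⟩ := isU_iff h
  refine ⟨e • (V * CC ℤ 0), Bd_smul he ?_, ?_, ?_⟩
  · intro i j
    rw [CC_zero, Matrix.mul_smul, Matrix.mul_one, Matrix.smul_apply]
    simp only [nsmul_eq_mul, Nat.cast_ofNat, Int.cast_mul, Int.cast_ofNat]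
    rw [abs_mul, abs_of_pos (by norm_num : (0:ℝ) < 2)]
    have := hV i j
    linarith
  · refine red_eq ?_
    have h1 : red n (CC ℤ 1) = e • (2 : ℤ) • (ev (ZMod n) X * red n V * ev (ZMod n) Z) := by
      rw [red_CC_one, CC_one_mod hn, hu, smul_comm]
    have h5 : V * CC ℤ 0 = 2 • V := by rw [CC_zero, Matrix.mul_smul, Matrix.mul_one]
    rw [h5, map_mul, map_mul, h1, map_zsmul, red_ev, red_ev, map_nsmul]
    calc ev (ZMod n) (iv X) * (e • (2:ℤ) • (ev (ZMod n) X * red n V * ev (ZMod n) Z)) * ev (ZMod n) (iv Z)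
        = e • (2:ℤ) • ((ev (ZMod n) (iv X) * ev (ZMod n) X) * red n V * (ev (ZMod n) Z * ev (ZMod n) (iv Z))) := by
          simp only [Matrix.mul_smul, Matrix.smul_mul, Matrix.mul_assoc]
      _ = e • 2 • red n V := by
          rw [ev_iv_mul, ev_mul_iv, Matrix.one_mul, Matrix.mul_one]
          congr 1
          exact_mod_cast natCast_zsmul (red n V) 2
  · intro h2
    apply par_aux (A := ev ℤ X) (B := V) (C := 1) (D := ev ℤ Z) (e := e)
    calc CC ℤ 1 = (ev ℤ X * ev ℤ (iv X)) * CC ℤ 1 * (ev ℤ (iv Z) * ev ℤ Z) := by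
          rw [ev_iv_mul, ev_mul_iv, Matrix.one_mul, Matrix.mul_one]
      _ = ev ℤ X * (ev ℤ (iv X) * CC ℤ 1 * ev ℤ (iv Z)) * ev ℤ Z := by simp only [Matrix.mul_assoc]
      _ = ev ℤ X * (e • (V * CC ℤ 0)) * ev ℤ Z := by rw [h2]
      _ = e • (ev ℤ X * V * CC ℤ 0 * 1 * ev ℤ Z) := by
          rw [Matrix.mul_smul, Matrix.smul_mul]; simp only [Matrix.mul_assoc, Matrix.one_mul]

theorem adj_bd (A : Mat) (i j : Fin 2) : ∃ i' j' : Fin 2, |(A.adjugate i j : ℝ)| = |(A i' j' : ℝ)| := by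
  rw [Matrix.adjugate_fin_two]
  rcases (by decide : ∀ k : Fin 2, k = 0 ∨ k = 1) i with rfl | rfl <;>
    rcases (by decide : ∀ k : Fin 2, k = 0 ∨ k = 1) j with rfl | rfl
  · exact ⟨1, 1, by simp⟩
  · exact ⟨0, 1, by simp⟩
  · exact ⟨1, 0, by simp⟩
  · exact ⟨0, 0, by simp⟩

theorem frame_aux2 {n : ℕ} (hn : Odd n) (Y : List (Fin 4)) (A B : Mat) (hA : A.det = 1) (hB : B.det = 1)
    (h : isU n (red n A * ev (ZMod n) Y * red n B)) {h₀ : ℝ}
    (hV : ∀ i j k l, |(A i j : ℝ)| * |(B k l : ℝ)| ≤ h₀) :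
    ∃ R : Mat, Bd R (5 * h₀) ∧
      (∀ i j, (n : ℤ) ∣ (ev ℤ Y * CC ℤ 0 * ev ℤ []) i j - R i j) ∧
      ev ℤ Y * CC ℤ 0 * ev ℤ [] ≠ R := by
  obtain ⟨e, he, hu⟩ := isU_iff h
  have hee : e * e = 1 := by rcases he with rfl | rfl <;> norm_num
  have hA1 : A.adjugate * A = 1 := by rw [Matrix.adjugate_mul, hA, one_smul]
  have hA2 : A * A.adjugate = 1 := by rw [Matrix.mul_adjugate, hA, one_smul]
  have hB1 : B.adjugate * B = 1 := by rw [Matrix.adjugate_mul, hB, one_smul]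
  have hB2 : B * B.adjugate = 1 := by rw [Matrix.mul_adjugate, hB, one_smul]
  rw [ev_nil, Matrix.mul_one]
  refine ⟨e • (A.adjugate * CC ℤ 1 * B.adjugate), Bd_smul he ?_, ?_, ?_⟩
  · intro i j
    have e1 : (A.adjugate * CC ℤ 1 * B.adjugate) i j =
        2 * (A.adjugate i 0 * B.adjugate 0 j) + A.adjugate i 0 * B.adjugate 1 j +
          2 * (A.adjugate i 1 * B.adjugate 1 j) := by
      simp only [CC, Matrix.mul_apply, Fin.sum_univ_two, Matrix.of_apply, Matrix.cons_val', Matrix.cons_val_zero,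
        Matrix.cons_val_one, Matrix.cons_val_fin_one]
      ring
    rw [e1]
    push_cast
    have h1 : ∀ k l, |(A.adjugate i k : ℝ) * (B.adjugate l j : ℝ)| ≤ h₀ := by
      intro k l
      obtain ⟨i', j', h2⟩ := adj_bd A i k
      obtain ⟨k', l', h3⟩ := adj_bd B l j
      rw [abs_mul, h2, h3]
      exact hV _ _ _ _
    have a1 := abs_le.1 (h1 0 0)
    have a2 := abs_le.1 (h1 0 1)
    have a3 := abs_le.1 (h1 1 1)
    rw [abs_le]
    constructor <;> linarith [a1.1, a1.2, a2.1, a2.2, a3.1, a3.2]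
  · refine red_eq ?_
    have h1 : red n (CC ℤ 1) = e • (2 : ℤ) • (red n A * ev (ZMod n) Y * red n B) := by
      rw [red_CC_one, CC_one_mod hn, hu, smul_comm]
    have h3 : red n A.adjugate * red n A = 1 := by rw [← map_mul, hA1, map_one]
    have h4 : red n B * red n B.adjugate = 1 := by rw [← map_mul, hB2, map_one]
    rw [map_zsmul, map_mul (red n) (A.adjugate * CC ℤ 1), map_mul (red n) A.adjugate, h1, CC_zero,
      Matrix.mul_smul, Matrix.mul_one, map_nsmul, red_ev]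
    symm
    calc e • (red n A.adjugate * (e • (2:ℤ) • (red n A * ev (ZMod n) Y * red n B)) * red n B.adjugate)
        = (e * e) • (2:ℤ) • ((red n A.adjugate * red n A) * ev (ZMod n) Y * (red n B * red n B.adjugate)) := by
          rw [← smul_smul]
          simp only [Matrix.mul_smul, Matrix.smul_mul, Matrix.mul_assoc]
      _ = 2 • ev (ZMod n) Y := by
          rw [h3, h4, hee, Matrix.one_mul, Matrix.mul_one, one_smul]
          exact_mod_cast natCast_zsmul (ev (ZMod n) Y) 2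
  · intro h2
    apply par_aux (A := A) (B := ev ℤ Y) (C := B) (D := 1) (e := e)
    calc CC ℤ 1 = (A * A.adjugate) * CC ℤ 1 * (B.adjugate * B) := by
          rw [hA2, hB1, Matrix.one_mul, Matrix.mul_one]
      _ = (e * e) • (A * (A.adjugate * CC ℤ 1 * B.adjugate) * B) := by
          rw [hee, one_smul]; simp only [Matrix.mul_assoc]
      _ = e • (A * (e • (A.adjugate * CC ℤ 1 * B.adjugate)) * B) := by
          rw [← smul_smul]
          simp only [Matrix.mul_smul, Matrix.smul_mul]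
      _ = e • (A * (ev ℤ Y * CC ℤ 0) * B) := by rw [h2]
      _ = e • (A * ev ℤ Y * CC ℤ 0 * B * 1) := by simp only [Matrix.mul_assoc, Matrix.mul_one]

theorem card_of_rigid {K : ℕ} {x δ h₀ : ℝ} {Q : Mat}
    (H : ∀ s : Finset ℤ, (∀ n ∈ s, x ≤ n ∧ (n : ℝ) ≤ x + x ^ δ ∧
      ∃ R : Mat, Bd R (5 * h₀) ∧ (∀ i j, n ∣ Q i j - R i j) ∧ Q ≠ R) → s.card ≤ K / 2)
    (G : Set ℕ) (hG : ∀ n ∈ G, x ≤ n ∧ (n : ℝ) ≤ x + x ^ δ ∧
      ∃ R : Mat, Bd R (5 * h₀) ∧ (∀ i j, (n : ℤ) ∣ Q i j - R i j) ∧ Q ≠ R) :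
    G.Finite ∧ G.ncard ≤ K / 2 := by
  have hfin : G.Finite := by
    apply (Set.finite_Iic (⌊x + x ^ δ⌋₊)).subset
    intro n hn
    exact Nat.le_floor (hG n hn).2.1
  refine ⟨hfin, ?_⟩
  rw [Set.ncard_eq_toFinset_card G hfin]
  have h1 := H (hfin.toFinset.image (Int.ofNat)) ?_
  · rwa [Finset.card_image_of_injective _ Int.ofNat_injective] at h1
  · intro n hn
    rw [Finset.mem_image] at hn
    obtain ⟨m, hm, rfl⟩ := hn
    have h2 := hG m (by simpa using hm)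
    refine ⟨?_, ?_, h2.2.2⟩
    · simpa using h2.1
    · simpa using h2.2.1

/-- **Rigidity of short words.** -/
theorem frames (K : ℕ) {ε : ℝ} (hε : 0 < ε) (hε2 : ε ≤ 1 / 2) :
    ∃ δ : ℝ, 0 < δ ∧ ∃ x₀ : ℝ, 1 ≤ x₀ ∧ ∀ x : ℝ, x₀ ≤ x →
      (∀ X Z : List (Fin 4), (X.length : ℝ) + Z.length ≤ K * Real.log x →
        ∀ G : Set ℕ, (∀ n ∈ G, Odd n ∧ x ≤ n ∧ (n : ℝ) ≤ x + x ^ δ ∧ ∃ V : Mat,
          Bd V (x ^ (1 / 2 - ε)) ∧ isU n (ev (ZMod n) X * red n V * ev (ZMod n) Z)) →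
        G.Finite ∧ G.ncard ≤ K / 2) ∧
      (∀ Y : List (Fin 4), (Y.length : ℝ) ≤ K * Real.log x →
        ∀ G : Set ℕ, (∀ n ∈ G, Odd n ∧ x ≤ n ∧ (n : ℝ) ≤ x + x ^ δ ∧ ∃ A B : Mat, A.det = 1 ∧ B.det = 1 ∧
          (∀ i j k l, |(A i j : ℝ)| * |(B k l : ℝ)| ≤ x ^ (1 / 2 - ε)) ∧
          isU n (red n A * ev (ZMod n) Y * red n B)) →
        G.Finite ∧ G.ncard ≤ K / 2) := by
  obtain ⟨δ, hδ, -, x₀, hx₀, H⟩ := rigid K hε hε2
  refine ⟨δ, hδ, x₀, hx₀, fun x hx => ⟨fun X Z hXZ G hG => ?_, fun Y hY G hG => ?_⟩⟩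
  · have hx0 : 0 ≤ x ^ (1 / 2 - ε) := Real.rpow_nonneg (by linarith) _
    refine card_of_rigid (H x hx 1 (Or.inr rfl) (iv X) (iv Z) ?_) G ?_
    · rw [iv_length, iv_length]; exact hXZ
    · intro n hn
      obtain ⟨h1, h2, h3, V, h4, h5⟩ := hG n hn
      exact ⟨h2, h3, frame_aux1 h1 X Z V h5 h4 hx0⟩
  · refine card_of_rigid (H x hx 0 (Or.inl rfl) Y [] ?_) G ?_
    · simpa using hY
    · intro n hn
      obtain ⟨h1, h2, h3, A, B, h4, h5, h6, h7⟩ := hG n hn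
      exact ⟨h2, h3, frame_aux2 h1 Y A B h4 h5 h7 h6⟩

end Pool.Agent.OW
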