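import Pool.Agent.Lib.MP_55cac8_lc.OWDefs

/-!
# Successive division
-/

set_option autoImplicit false

namespace Pool.Agent.OW

open Matrix

/-- all entries are at most `h` -/
def Bd (M : Mat) (h : ℝ) : Prop := ∀ i j, |(M i j : ℝ)| ≤ h

theorem eq_zero_of_bd {M : Mat} {h : ℝ} (hM : Bd M h) (hh : h < 1) : M = 0 := by
  ext i j
  have h1 := hM i j
  have h2 : |(M i j : ℝ)| < 1 := h1.trans_lt hh
  have h3 : |M i j| < 1 := by exact_mod_cast h2
  simpa using Int.abs_lt_one_iff.1 h3

/-- The datum `(n, D, R)` says: `D Q ≡ R` modulo `n`. -/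
structure Dat (x W G H : ℝ) (Q : Mat) (t : ℤ × ℤ × Mat) : Prop where
  lo : x ≤ t.1
  hi : (t.1 : ℝ) ≤ x + W
  ne : t.2.1 ≠ 0
  small : |(t.2.1 : ℝ)| ≤ G
  bd : Bd t.2.2 (G * H)
  dvd : ∀ i j, t.1 ∣ t.2.1 * Q i j - t.2.2 i j

/-- `Q` is essentially a large integer times a small matrix `Z`. -/
def Rep (x g h : ℝ) (Q : Mat) : Prop :=
  ∃ (D : ℤ) (P : ℝ) (Z : Mat), D ≠ 0 ∧ |(D : ℝ)| ≤ g ∧ x ≤ P ∧ Z ≠ 0 ∧ Bd Z h ∧
    ∀ i j, |(D : ℝ) * Q i j - P * Z i j| ≤ h * P / x

theorem rep {x W H GG : ℝ} (hW : 1 ≤ W) (hH : 1 ≤ H) (hGG : 1 ≤ GG) (hx : 2 * GG * H < x) :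
    ∀ (m : ℕ) (l : List (ℤ × ℤ × Mat)) (_ : l.length = m) (G : ℝ) (_ : 1 ≤ G)
      (_ : (2 * G * W) ^ (2 ^ m) ≤ GG) (Q : Mat) (q : ℝ)
      (_ : Q ≠ 0) (_ : Bd Q q) (_ : q < (x / (2 * GG)) ^ m) (_ : ∀ t ∈ l, Dat x W G H Q t)
      (_ : l.Pairwise fun s t => s.1 ≠ t.1),
      (∃ t ∈ l, t.2.1 • Q = t.2.2) ∨ Rep x (GG ^ m) (m * GG ^ m * H) Q := by
  have hx0 : 0 < x := by nlinarith
  have hX1 : H < x / (2 * GG) := by
    rw [lt_div_iff₀ (by linarith)]
    linarith
  have hX0 : 0 < x / (2 * GG) := by linarith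
  intro m
  induction m with
  | zero =>
    intro l _ G _ _ Q q hQ0 hQ hq _ _
    exfalso
    apply hQ0
    apply eq_zero_of_bd hQ
    simpa using hq
  | succ m ih =>
    intro l hlm G hG hGl Q q hQ0 hQ hq hD hp
    obtain ⟨t, l, rfl⟩ : ∃ t l0, l = t :: l0 := by
      cases l with
      | nil => simp at hlm
      | cons t l0 => exact ⟨t, l0, rfl⟩
    have hl_len : l.length = m := by simpa using hlm
    obtain ⟨n, D0, R0⟩ := t
    have ht := hD _ List.mem_cons_self
    have h_lo : x ≤ (n : ℝ) := ht.lo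
    have h_hi : (n : ℝ) ≤ x + W := ht.hi
    have hD0 : D0 ≠ 0 := ht.ne
    have hDG : |(D0 : ℝ)| ≤ G := ht.small
    have hR0 : Bd R0 (G * H) := ht.bd
    have hdv : ∀ i j, n ∣ D0 * Q i j - R0 i j := ht.dvd
    have hn0 : (0 : ℝ) < n := by linarith
    have hn0' : n ≠ 0 := by
      rintro rfl
      simp at hn0
    -- the quotient
    choose q' hq' using hdv
    set Q' : Mat := Matrix.of q' with hQ'def
    have hQ'e : ∀ i j, Q' i j = q' i j := fun i j => rfl
    have hQ' : ∀ i j, D0 * Q i j = R0 i j + n * Q' i j := fun i j => by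
      rw [hQ'e]; linarith [hq' i j]
    -- the bound for `GG`
    have hGGl : (2 * (2 * G ^ 2 * W) * W) ^ (2 ^ m) ≤ GG := by
      have : (2 * (2 * G ^ 2 * W) * W) = (2 * G * W) ^ 2 := by ring
      rw [this, ← pow_mul, ← pow_succ']
      exact hGl
    have h2GW : 1 ≤ 2 * G * W := by nlinarith
    have hG'GG : 2 * G ^ 2 * W ≤ GG := by
      refine le_trans ?_ hGGl
      have h1 : 2 * G ^ 2 * W ≤ 2 * (2 * G ^ 2 * W) * W := by
        have : 0 ≤ 2 * G ^ 2 * W := by positivity
        nlinarith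
      have h2 : (1:ℝ) ≤ 2 * (2 * G ^ 2 * W) * W := by
        have : 1 ≤ G ^ 2 := one_le_pow₀ hG
        nlinarith
      refine h1.trans ?_
      exact le_self_pow₀ h2 (by positivity)
    have hGGG : G ≤ GG := by
      refine le_trans ?_ hG'GG
      nlinarith
    by_cases hQ'0 : Q' = 0
    · left
      refine ⟨(n, D0, R0), List.mem_cons_self, ?_⟩
      ext i j
      have := hQ' i j
      rw [hQ'0] at this
      simpa using this
    right
    -- the new data
    set l' : List (ℤ × ℤ × Mat) :=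
      l.map fun s => (s.1, s.2.1 * (n - s.1), D0 • s.2.2 - s.2.1 • R0) with hl'
    have hlen : l'.length = m := by simp [hl', hl_len]
    have hp' : l'.Pairwise fun s t => s.1 ≠ t.1 := by
      rw [hl', List.pairwise_map]
      exact (List.pairwise_cons.1 hp).2
    have hne : ∀ s ∈ l, n ≠ s.1 := fun s hs => (List.pairwise_cons.1 hp).1 s hs
    have hDat : ∀ s ∈ l', Dat x W (2 * G ^ 2 * W) H Q' s := by
      intro s hs
      rw [hl', List.mem_map] at hs
      obtain ⟨s, hs, rfl⟩ := hs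
      have hs' := hD s (List.mem_cons_of_mem _ hs)
      refine ⟨hs'.lo, hs'.hi, ?_, ?_, ?_, ?_⟩
      · exact mul_ne_zero hs'.ne (sub_ne_zero.2 (hne s hs))
      · show |((s.2.1 * (n - s.1) : ℤ) : ℝ)| ≤ 2 * G ^ 2 * W
        push_cast
        rw [abs_mul]
        have h1 : |(n : ℝ) - s.1| ≤ W := by
          rw [abs_le]
          constructor
          · linarith [hs'.hi]
          · linarith [hs'.lo]
        calc |(s.2.1 : ℝ)| * |(n : ℝ) - s.1| ≤ G * W :=
              mul_le_mul hs'.small h1 (abs_nonneg _) (by linarith)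
          _ ≤ 2 * G ^ 2 * W := by nlinarith
      · intro i j
        have e : (D0 • s.2.2 - s.2.1 • R0) i j = D0 * s.2.2 i j - s.2.1 * R0 i j := by
          rfl
        show |(((D0 • s.2.2 - s.2.1 • R0) i j : ℤ) : ℝ)| ≤ _
        rw [e]
        push_cast
        calc |(D0 : ℝ) * s.2.2 i j - s.2.1 * R0 i j| ≤ |(D0 : ℝ) * s.2.2 i j| + |(s.2.1 : ℝ) * R0 i j| :=
              abs_sub _ _
          _ = |(D0 : ℝ)| * |(s.2.2 i j : ℝ)| + |(s.2.1 : ℝ)| * |(R0 i j : ℝ)| := by
              rw [abs_mul, abs_mul]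
          _ ≤ G * (G * H) + G * (G * H) := by
              have h1 := mul_le_mul hDG (hs'.bd i j) (abs_nonneg _) (by linarith)
              have h2 := mul_le_mul hs'.small (hR0 i j) (abs_nonneg _) (by linarith)
              linarith
          _ ≤ 2 * G ^ 2 * W * H := by
              have : 0 ≤ G ^ 2 * H := by positivity
              nlinarith
      · intro i j
        show s.1 ∣ (s.2.1 * (n - s.1)) * Q' i j - (D0 • s.2.2 - s.2.1 • R0) i j
        have e : (D0 • s.2.2 - s.2.1 • R0) i j = D0 * s.2.2 i j - s.2.1 * R0 i j := by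
          rfl
        rw [e]
        obtain ⟨k, hk⟩ := hs'.dvd i j
        refine ⟨D0 * k - s.2.1 * Q' i j, ?_⟩
        have h1 := hQ' i j
        have h2 : s.2.1 * Q i j = s.2.2 i j + s.1 * k := by linarith
        have h3 : s.2.1 * (D0 * Q i j) = D0 * (s.2.2 i j + s.1 * k) := by rw [← h2]; ring
        rw [h1] at h3
        linear_combination h3
    have hQ'q : Bd Q' ((q + H) / (2 * (x / (2 * GG)))) := by
      intro i j
      have h1 : (n : ℝ) * Q' i j = D0 * Q i j - R0 i j := by
        have := hQ' i j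
        have h2 : (D0 : ℝ) * Q i j = R0 i j + n * Q' i j := by exact_mod_cast this
        linarith
      have h2 : (n : ℝ) * |(Q' i j : ℝ)| ≤ G * q + G * H := by
        have : (n : ℝ) * |(Q' i j : ℝ)| = |(n : ℝ) * Q' i j| := by
          rw [abs_mul, abs_of_pos hn0]
        rw [this, h1]
        calc |(D0 : ℝ) * Q i j - R0 i j| ≤ |(D0 : ℝ) * Q i j| + |(R0 i j : ℝ)| := abs_sub _ _
          _ = |(D0 : ℝ)| * |(Q i j : ℝ)| + |(R0 i j : ℝ)| := by rw [abs_mul]
          _ ≤ G * q + G * H := by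
              have h1 := mul_le_mul hDG (hQ i j) (abs_nonneg _) (by linarith)
              have h2 := hR0 i j
              linarith
      have hq0 : 0 ≤ q := (abs_nonneg _).trans (hQ 0 0)
      rw [le_div_iff₀ (by linarith)]
      have h3 : |(Q' i j : ℝ)| * x ≤ G * (q + H) := by
        have : |(Q' i j : ℝ)| * x ≤ |(Q' i j : ℝ)| * n := mul_le_mul_of_nonneg_left h_lo (abs_nonneg _)
        nlinarith
      have h4 : |(Q' i j : ℝ)| * (2 * (x / (2 * GG))) = |(Q' i j : ℝ)| * x / GG := by field_simp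
      rw [h4, div_le_iff₀ (by linarith)]
      have h5 : G * (q + H) ≤ GG * (q + H) := by
        apply mul_le_mul_of_nonneg_right hGGG
        linarith
      linarith
    have hQ'lt : (q + H) / (2 * (x / (2 * GG))) < (x / (2 * GG)) ^ m := by
      rw [div_lt_iff₀ (by linarith)]
      have h1 : q < (x / (2 * GG)) ^ (m + 1) := hq
      have h2 : H < (x / (2 * GG)) ^ (m + 1) := by
        refine hX1.trans_le ?_
        exact le_self_pow₀ (by linarith) (by omega)
      have h3 : (x / (2 * GG)) ^ (m + 1) = (x / (2 * GG)) ^ m * (x / (2 * GG)) := pow_succ _ _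
      rw [h3] at h1 h2
      linarith
    have hG' : 1 ≤ 2 * G ^ 2 * W := by nlinarith [one_le_pow₀ hG (n := 2)]
    have key := ih l' hlen (2 * G ^ 2 * W) hG' hGGl Q' _ hQ'0 hQ'q hQ'lt hDat hp'
    have hm1 : (1:ℝ) ≤ GG ^ m := one_le_pow₀ hGG
    have hpow : GG ^ (m + 1) = GG ^ m * GG := pow_succ _ _
    have hm0 : (0:ℝ) ≤ m := Nat.cast_nonneg _
    have hH0 : 0 ≤ H := by linarith
    have hD0GG : |(D0 : ℝ)| ≤ GG := hDG.trans hGGG
    have hQr : ∀ i j, (D0 : ℝ) * Q i j = R0 i j + n * Q' i j := fun i j => by exact_mod_cast hQ' i j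
    have hbig : GG * H ≤ ((m + 1 : ℕ) : ℝ) * GG ^ (m + 1) * H := by
      rw [hpow]
      push_cast
      have h1 : GG * H ≤ GG ^ m * GG * H := by
        apply mul_le_mul_of_nonneg_right _ hH0
        nlinarith
      have h2 : 0 ≤ (m:ℝ) * (GG ^ m * GG * H) := by positivity
      nlinarith
    have hbig1 : GG ≤ GG ^ (m + 1) := le_self_pow₀ hGG (by omega)
    have hx1 : 1 ≤ x := by nlinarith
    rcases key with ⟨s, hs, hsQ⟩ | ⟨D, P, Z, hDne, hDb, hP, hZ0, hZb, hE⟩
    · -- `Q'` itself is small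
      refine ⟨D0, n, Q', hD0, hD0GG.trans hbig1, h_lo, hQ'0, ?_, ?_⟩
      · intro i j
        have h1 := (hDat s hs).bd i j
        have h2 := (hDat s hs).ne
        rw [← hsQ] at h1
        have h3 : |((s.2.1 • Q') i j : ℝ)| = |(s.2.1 : ℝ)| * |(Q' i j : ℝ)| := by
          rw [← abs_mul]
          congr 1
          have : (s.2.1 • Q') i j = s.2.1 * Q' i j := rfl
          rw [this]
          push_cast
          ring
        have h4 : (1:ℝ) ≤ |(s.2.1 : ℝ)| := by
          have : 1 ≤ |s.2.1| := Int.one_le_abs h2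
          exact_mod_cast this
        have h5 : |(Q' i j : ℝ)| ≤ |(s.2.1 : ℝ)| * |(Q' i j : ℝ)| := by
          nlinarith [abs_nonneg (Q' i j : ℝ)]
        have h6 : 2 * G ^ 2 * W * H ≤ GG * H := mul_le_mul_of_nonneg_right hG'GG hH0
        rw [h3] at h1
        linarith
      · intro i j
        have e : (D0 : ℝ) * Q i j - n * Q' i j = R0 i j := by rw [hQr i j]; ring
        rw [e]
        have h1 := hR0 i j
        have h2 : G * H ≤ GG * H := mul_le_mul_of_nonneg_right hGGG hH0
        have h3 : ((m + 1 : ℕ) : ℝ) * GG ^ (m + 1) * H ≤ ((m + 1 : ℕ) : ℝ) * GG ^ (m + 1) * H * n / x := by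
          rw [le_div_iff₀ hx0]
          apply mul_le_mul_of_nonneg_left h_lo (by positivity)
        linarith
    · have hP0 : 0 < P := lt_of_lt_of_le hx0 hP
      have hnP : x ≤ n * P := by
        calc x = x * 1 := (mul_one x).symm
          _ ≤ n * P := mul_le_mul h_lo (hx1.trans hP) zero_le_one hn0.le
      refine ⟨D * D0, n * P, Z, mul_ne_zero hDne hD0, ?_, hnP, hZ0, ?_, ?_⟩
      · push_cast
        rw [abs_mul, hpow]
        exact mul_le_mul hDb hD0GG (abs_nonneg _) (by positivity)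
      · intro i j
        refine (hZb i j).trans ?_
        rw [hpow]
        push_cast
        have : 0 ≤ GG ^ m * H := by positivity
        have h2 : (m:ℝ) * GG ^ m * H ≤ (m + 1) * GG ^ m * H := by nlinarith
        have h3 : ((m:ℝ) + 1) * GG ^ m * H ≤ (m + 1) * (GG ^ m * GG) * H := by
          have h4 : 0 ≤ ((m:ℝ) + 1) * GG ^ m * H := by positivity
          nlinarith
        linarith
      · intro i j
        have e : ((D * D0 : ℤ) : ℝ) * Q i j - n * P * Z i j = D * R0 i j + n * (D * Q' i j - P * Z i j) := by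
          push_cast
          have := hQr i j
          linear_combination (D : ℝ) * this
        rw [e]
        have h1 : |(D : ℝ) * R0 i j| ≤ GG ^ m * (GG * H) := by
          rw [abs_mul]
          exact mul_le_mul hDb ((hR0 i j).trans (mul_le_mul_of_nonneg_right hGGG hH0)) (abs_nonneg _) (by positivity)
        have h2 : |(n : ℝ) * (D * Q' i j - P * Z i j)| ≤ n * (m * GG ^ m * H * P / x) := by
          rw [abs_mul, abs_of_pos hn0]
          exact mul_le_mul_of_nonneg_left (hE i j) hn0.le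
        have h3 : GG ^ m * (GG * H) ≤ GG ^ m * (GG * H) * (n * P / x) := by
          have : 1 ≤ (n:ℝ) * P / x := by rw [le_div_iff₀ hx0]; linarith
          have h4 : 0 ≤ GG ^ m * (GG * H) := by positivity
          nlinarith
        have h4 : (n : ℝ) * (m * GG ^ m * H * P / x) ≤ m * GG ^ m * GG * H * (n * P / x) := by
          have e1 : (n : ℝ) * (m * GG ^ m * H * P / x) = m * GG ^ m * H * (n * P / x) := by ring
          rw [e1]
          have h5 : 0 ≤ (n:ℝ) * P / x := by positivity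
          apply mul_le_mul_of_nonneg_right _ h5
          have h6 : 0 ≤ (m:ℝ) * GG ^ m * H := by positivity
          nlinarith
        have h7 : ((m + 1 : ℕ) : ℝ) * GG ^ (m + 1) * H * (n * P) / x =
            GG ^ m * (GG * H) * (n * P / x) + m * GG ^ m * GG * H * (n * P / x) := by
          rw [hpow]
          push_cast
          ring
        rw [h7]
        calc |(D : ℝ) * R0 i j + n * (D * Q' i j - P * Z i j)|
            ≤ |(D : ℝ) * R0 i j| + |(n : ℝ) * (D * Q' i j - P * Z i j)| := abs_add_le _ _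
          _ ≤ _ := by linarith

end Pool.Agent.OW
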