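import Pool.Agent.Lib.MP_55cac8_lc.OWPath
import Pool.Agent.Lib.MP_55cac8_lc.OWRep

/-!
# A short matrix is not a large multiple of a small one
-/

set_option autoImplicit false

namespace Pool.Agent.OW

open Matrix

theorem not_rep (w1 w2 : List (Fin 4)) {c : ℤ} (hc : c = 0 ∨ c = 1) {x g h L : ℝ} (hx : 1 ≤ x)
    (hL : (w1.length : ℝ) + w2.length + 1 ≤ L) (hLh : 46 * L * h ^ 2 < x) (hg : 8 * g ^ 2 < x ^ 2) :
    ¬ Rep x g h (ev ℤ w1 * CC ℤ c * ev ℤ w2) := by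
  rintro ⟨D, P, Z, hD0, hDg, hP, hZ0, hZb, hE⟩
  set Q := ev ℤ w1 * CC ℤ c * ev ℤ w2 with hQ
  have hdetQ : Q.det = 4 := by
    rw [hQ, Matrix.det_mul, Matrix.det_mul, det_ev, det_ev, det_CC]; norm_num
  have hx0 : 0 < x := by linarith
  have hP0 : 0 < P := by linarith
  have hh0 : 0 ≤ h := (abs_nonneg _).trans (hZb 0 0)
  have hw1 : (0:ℝ) ≤ w1.length := Nat.cast_nonneg _
  have hw2 : (0:ℝ) ≤ w2.length := Nat.cast_nonneg _
  have hL1 : 1 ≤ L := by linarith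
  have hh2 : 46 * h ^ 2 < x := by nlinarith [sq_nonneg h]
  -- some entry of `Z` is nonzero, so `h ≥ 1`
  obtain ⟨i0, j, hij⟩ : ∃ i j, Z i j ≠ 0 := by
    by_contra hcon
    push Not at hcon
    exact hZ0 (by ext i j; exact hcon i j)
  have hh1 : 1 ≤ h := by
    refine le_trans ?_ (hZb i0 j)
    have : 1 ≤ |Z i0 j| := Int.one_le_abs hij
    exact_mod_cast this
  set e : ℝ := h * P / x with he
  have he0 : 0 ≤ e := by positivity
  have hex : e * x = h * P := by rw [he]; field_simp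
  -- `E = D Q - P Z`
  set E : Fin 2 → Fin 2 → ℝ := fun i j => (D : ℝ) * Q i j - P * Z i j with hEdef
  have hEb : ∀ i j, |E i j| ≤ e := hE
  have hDQ : ∀ i j, (D : ℝ) * Q i j = P * Z i j + E i j := fun i j => by simp only [hEdef]; ring
  have hdetQr : (Q 0 0 : ℝ) * Q 1 1 - Q 0 1 * Q 1 0 = 4 := by
    rw [Matrix.det_fin_two] at hdetQ
    exact_mod_cast hdetQ
  have hdetE : P ^ 2 * ((Z 0 0 : ℝ) * Z 1 1 - Z 0 1 * Z 1 0) =
      4 * (D:ℝ) ^ 2 - P * (Z 0 0 * E 1 1 + E 0 0 * Z 1 1 - Z 0 1 * E 1 0 - E 0 1 * Z 1 0) -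
        (E 0 0 * E 1 1 - E 0 1 * E 1 0) := by
    have h1 : 4 * (D:ℝ) ^ 2 = (D * Q 0 0) * (D * Q 1 1) - (D * Q 0 1) * (D * Q 1 0) := by
      linear_combination (-(D:ℝ) ^ 2) * hdetQr
    rw [h1, hDQ, hDQ, hDQ, hDQ]
    ring
  have hZe : ∀ i j k l, |(Z i j : ℝ) * E k l| ≤ h * e := fun i j k l => by
    rw [abs_mul]
    exact mul_le_mul (hZb i j) (hEb k l) (abs_nonneg _) hh0
  have hEe : ∀ i j k l, |E i j * E k l| ≤ e * e := fun i j k l => by
    rw [abs_mul]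
    exact mul_le_mul (hEb i j) (hEb k l) (abs_nonneg _) he0
  have heP : 46 * (h * e) ≤ P := by
    have h1 : 46 * (h * e) * x ≤ P * x := by
      calc 46 * (h * e) * x = 46 * h * (e * x) := by ring
        _ = 46 * h ^ 2 * P := by rw [hex]; ring
        _ ≤ x * P := mul_le_mul_of_nonneg_right hh2.le hP0.le
        _ = P * x := mul_comm _ _
    exact le_of_mul_le_mul_right h1 hx0
  have heP' : 46 * e ≤ P := by nlinarith
  have hdetZ : Z.det = 0 := by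
    by_contra hne
    have h1 : (1:ℝ) ≤ |(Z 0 0 : ℝ) * Z 1 1 - Z 0 1 * Z 1 0| := by
      rw [Matrix.det_fin_two] at hne
      have := Int.one_le_abs hne
      exact_mod_cast this
    have h2 : P ^ 2 ≤ |P ^ 2 * ((Z 0 0 : ℝ) * Z 1 1 - Z 0 1 * Z 1 0)| := by
      rw [abs_mul, abs_of_pos (by positivity : 0 < P ^ 2)]
      nlinarith [sq_nonneg P]
    rw [hdetE] at h2
    have h3 : |P * (Z 0 0 * E 1 1 + E 0 0 * Z 1 1 - Z 0 1 * E 1 0 - E 0 1 * Z 1 0)| ≤ P * (4 * (h * e)) := by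
      rw [abs_mul, abs_of_pos hP0]
      apply mul_le_mul_of_nonneg_left _ hP0.le
      have a1 := abs_le.1 (hZe 0 0 1 1)
      have a2 := abs_le.1 (hZe 1 1 0 0)
      have a3 := abs_le.1 (hZe 0 1 1 0)
      have a4 := abs_le.1 (hZe 1 0 0 1)
      rw [abs_le]
      constructor <;> linarith [a1.1, a1.2, a2.1, a2.2, a3.1, a3.2, a4.1, a4.2]
    have h4 : |E 0 0 * E 1 1 - E 0 1 * E 1 0| ≤ 2 * (e * e) := by
      have a1 := abs_le.1 (hEe 0 0 1 1)
      have a2 := abs_le.1 (hEe 0 1 1 0)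
      rw [abs_le]
      constructor <;> linarith [a1.1, a1.2, a2.1, a2.2]
    have h5 : |4 * (D:ℝ) ^ 2| ≤ 4 * g ^ 2 := by
      rw [abs_mul, abs_of_pos (by norm_num : (0:ℝ) < 4), abs_pow]
      have : |(D:ℝ)| ^ 2 ≤ g ^ 2 := pow_le_pow_left₀ (abs_nonneg _) hDg 2
      linarith
    have h6 : P ^ 2 ≤ 4 * g ^ 2 + P * (4 * (h * e)) + 2 * (e * e) := by
      refine h2.trans ?_
      have b1 := abs_le.1 h3
      have b2 := abs_le.1 h4
      have b3 := abs_le.1 h5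
      rw [abs_le]
      constructor <;> linarith [b1.1, b1.2, b2.1, b2.2, b3.1, b3.2]
    have h7 : P * (4 * (h * e)) ≤ P ^ 2 / 4 := by nlinarith
    have h8 : 2 * (e * e) ≤ P ^ 2 / 4 := by nlinarith
    have h9 : x ^ 2 ≤ P ^ 2 := pow_le_pow_left₀ hx0.le hP 2
    linarith
  -- the cusp
  set p := Z 0 j with hp
  set q := Z 1 j with hq
  have hN : 0 < p ^ 2 + q ^ 2 := by
    rcases (by decide : ∀ k : Fin 2, k = 0 ∨ k = 1) i0 with h0 | h0
    · rw [h0] at hij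
      positivity
    · rw [h0] at hij
      positivity
  have hbet : ∀ k, bet p q Z k = 0 := by
    intro k
    rw [Matrix.det_fin_two] at hdetZ
    rcases (by decide : ∀ k : Fin 2, k = 0 ∨ k = 1) k with rfl | rfl <;>
      rcases (by decide : ∀ k : Fin 2, k = 0 ∨ k = 1) j with h0 | h0 <;>
      simp only [bet, hp, hq, h0] <;> linarith
  have hpq : |(p:ℝ)| ≤ h ∧ |(q:ℝ)| ≤ h := ⟨hZb 0 j, hZb 1 j⟩
  have hund := undist hN w1 w2 hc hL
  rw [← hQ] at hund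
  set N : ℝ := (p:ℝ) ^ 2 + (q:ℝ) ^ 2 with hNdef
  have hN1 : (1:ℝ) ≤ N := by
    have : 1 ≤ p ^ 2 + q ^ 2 := hN
    rw [hNdef]
    exact_mod_cast this
  have hpN : |(p:ℝ)| ≤ N := by
    have h1 : |p| ≤ p ^ 2 := by
      rw [← sq_abs]
      nlinarith [abs_nonneg p, Int.le_self_sq |p|]
    have h2 : |(p:ℝ)| ≤ (p:ℝ) ^ 2 := by exact_mod_cast h1
    nlinarith [sq_nonneg (q:ℝ)]
  have hqN : |(q:ℝ)| ≤ N := by
    have h1 : |q| ≤ q ^ 2 := by
      rw [← sq_abs]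
      nlinarith [abs_nonneg q, Int.le_self_sq |q|]
    have h2 : |(q:ℝ)| ≤ (q:ℝ) ^ 2 := by exact_mod_cast h1
    nlinarith [sq_nonneg (p:ℝ)]
  -- `D tau`
  have htau : (D:ℝ) * tau p q Q j = P * N + (p * E 0 j + q * E 1 j) := by
    have : (D:ℝ) * tau p q Q j = p * (D * Q 0 j) + q * (D * Q 1 j) := by
      unfold tau; push_cast; ring
    rw [this, hDQ, hDQ, hNdef, ← hp, ← hq]
    ring
  have htau' : P * N / 2 ≤ |(D:ℝ) * tau p q Q j| := by
    rw [htau]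
    have h1 : |(p:ℝ) * E 0 j| ≤ N * e := by
      rw [abs_mul]; exact mul_le_mul hpN (hEb 0 j) (abs_nonneg _) (by linarith)
    have h2 : |(q:ℝ) * E 1 j| ≤ N * e := by
      rw [abs_mul]; exact mul_le_mul hqN (hEb 1 j) (abs_nonneg _) (by linarith)
    have a1 := abs_le.1 h1
    have a2 := abs_le.1 h2
    have h3 : N * (46 * e) ≤ N * P := mul_le_mul_of_nonneg_left heP' (by linarith)
    refine le_trans ?_ (le_abs_self _)
    nlinarith [a1.1, a2.1]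
  have hbetD : ∀ k, |(D:ℝ) * bet p q Q k| ≤ 2 * (h * e) := by
    intro k
    have h1 : (D:ℝ) * bet p q Q k = -q * E 0 k + p * E 1 k := by
      have h2 : (D:ℝ) * bet p q Q k = -q * (D * Q 0 k) + p * (D * Q 1 k) := by
        unfold bet; push_cast; ring
      have h3 : (-(q:ℝ)) * Z 0 k + p * Z 1 k = 0 := by
        have := hbet k
        unfold bet at this
        exact_mod_cast this
      rw [h2, hDQ, hDQ]
      linear_combination P * h3
    rw [h1]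
    have h4 : |(q:ℝ) * E 0 k| ≤ h * e := by
      rw [abs_mul]; exact mul_le_mul hpq.2 (hEb 0 k) (abs_nonneg _) hh0
    have h5 : |(p:ℝ) * E 1 k| ≤ h * e := by
      rw [abs_mul]; exact mul_le_mul hpq.1 (hEb 1 k) (abs_nonneg _) hh0
    have a1 := abs_le.1 h4
    have a2 := abs_le.1 h5
    rw [abs_le]
    constructor <;> linarith [a1.1, a1.2, a2.1, a2.2]
  have h1 : ((D:ℝ) * tau p q Q j) ^ 2 ≤ (D:ℝ) ^ 2 * ((tau p q Q 0 : ℝ) ^ 2 + (tau p q Q 1 : ℝ) ^ 2) := by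
    rw [mul_pow]
    apply mul_le_mul_of_nonneg_left _ (sq_nonneg _)
    rcases (by decide : ∀ k : Fin 2, k = 0 ∨ k = 1) j with h0 | h0 <;> rw [h0]
    · nlinarith [sq_nonneg (tau p q Q 1 : ℝ)]
    · nlinarith [sq_nonneg (tau p q Q 0 : ℝ)]
  have h2 : (P * N / 2) ^ 2 ≤ ((D:ℝ) * tau p q Q j) ^ 2 := by
    rw [← sq_abs ((D:ℝ) * tau p q Q j)]
    exact pow_le_pow_left₀ (by positivity) htau' 2
  have h3 : (D:ℝ) ^ 2 * ((tau p q Q 0 : ℝ) ^ 2 + (tau p q Q 1 : ℝ) ^ 2) ≤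
      (8 * L * N) ^ 2 * (((D:ℝ) * bet p q Q 0) ^ 2 + ((D:ℝ) * bet p q Q 1) ^ 2) := by
    have := mul_le_mul_of_nonneg_left hund (sq_nonneg (D:ℝ))
    calc _ ≤ _ := this
      _ = _ := by ring
  have h4 : ∀ k, ((D:ℝ) * bet p q Q k) ^ 2 ≤ (2 * (h * e)) ^ 2 := fun k => by
    rw [← sq_abs]
    exact pow_le_pow_left₀ (abs_nonneg _) (hbetD k) 2
  have h5 : (P * N / 2) ^ 2 ≤ (8 * L * N) ^ 2 * (2 * (2 * (h * e)) ^ 2) := by
    refine h2.trans (h1.trans (h3.trans ?_))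
    apply mul_le_mul_of_nonneg_left _ (sq_nonneg _)
    linarith [h4 0, h4 1]
  have h6 : P ^ 2 ≤ (46 * L * (h * e)) ^ 2 := by
    have hN2 : 0 < N ^ 2 := by positivity
    have h7 : N ^ 2 * P ^ 2 ≤ N ^ 2 * (2048 * (L * (h * e)) ^ 2) := by nlinarith
    have h8 := le_of_mul_le_mul_left h7 hN2
    nlinarith [sq_nonneg (L * (h * e))]
  have h7 : P ≤ 46 * L * (h * e) := by
    have := abs_le_of_sq_le_sq' h6 (by positivity)
    exact this.2
  have h8 : P * x ≤ 46 * L * h ^ 2 * P := by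
    calc P * x ≤ 46 * L * (h * e) * x := mul_le_mul_of_nonneg_right h7 hx0.le
      _ = 46 * L * h * (e * x) := by ring
      _ = _ := by rw [hex]; ring
  nlinarith

end Pool.Agent.OW
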