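import Pool.Agent.Lib.MP_55cac8_lc.OWDefs

/-!
# Unipotents are undistorted in `SL_2(Z)`
-/

set_option autoImplicit false

namespace Pool.Agent.OW

open Matrix

/-- `vᵀ M` for `v = (p, q)` -/
def tau (p q : ℤ) (M : Mat) (j : Fin 2) : ℤ := p * M 0 j + q * M 1 j

/-- `v'ᵀ M` for `v' = (-q, p)` -/
def bet (p q : ℤ) (M : Mat) (j : Fin 2) : ℤ := -q * M 0 j + p * M 1 j

theorem tau_bet (p q : ℤ) (M : Mat) :
    tau p q M 0 * bet p q M 1 - tau p q M 1 * bet p q M 0 = (p ^ 2 + q ^ 2) * M.det := by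
  rw [Matrix.det_fin_two]
  unfold tau bet
  ring

theorem bet_ne {p q : ℤ} (h : 0 < p ^ 2 + q ^ 2) {M : Mat} (hM : M.det ≠ 0) :
    1 ≤ bet p q M 0 ^ 2 + bet p q M 1 ^ 2 := by
  have h1 := tau_bet p q M
  have h2 : (p ^ 2 + q ^ 2) * M.det ≠ 0 := mul_ne_zero h.ne' hM
  rcases lt_or_eq_of_le (by positivity : 0 ≤ bet p q M 0 ^ 2 + bet p q M 1 ^ 2) with h3 | h3
  · omega
  · exfalso
    have h4 : bet p q M 0 ^ 2 = 0 := by nlinarith [sq_nonneg (bet p q M 0), sq_nonneg (bet p q M 1)]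
    have h5 : bet p q M 1 ^ 2 = 0 := by nlinarith [sq_nonneg (bet p q M 0), sq_nonneg (bet p q M 1)]
    have h6 : bet p q M 0 = 0 := by simpa using h4
    have h7 : bet p q M 1 = 0 := by simpa using h5
    rw [h6, h7] at h1
    apply h2
    rw [← h1]
    ring

/-- the slope of `M i` seen from the cusp `v` is at most `r` -/
def Pth (p q : ℤ) (M : Mat) (r : ℝ) : Prop :=
  |(tau p q M 0 : ℝ) * bet p q M 0 + tau p q M 1 * bet p q M 1| ≤
    r * ((bet p q M 0 : ℝ) ^ 2 + (bet p q M 1 : ℝ) ^ 2)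

theorem bet_real {p q : ℤ} (h : 0 < p ^ 2 + q ^ 2) {M : Mat} (hM : M.det ≠ 0) :
    (1 : ℝ) ≤ (bet p q M 0 : ℝ) ^ 2 + (bet p q M 1 : ℝ) ^ 2 := by
  exact_mod_cast bet_ne h hM

theorem tau_bet_real (p q : ℤ) (M : Mat) :
    (tau p q M 0 : ℝ) * bet p q M 1 - tau p q M 1 * bet p q M 0 = ((p : ℝ) ^ 2 + (q : ℝ) ^ 2) * (M.det : ℝ) := by
  exact_mod_cast tau_bet p q M

theorem pth_one (p q : ℤ) : Pth p q 1 0 := by
  unfold Pth tau bet
  simp only [Matrix.one_apply_eq, Matrix.one_apply_ne (by decide : (0 : Fin 2) ≠ 1),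
    Matrix.one_apply_ne (by decide : (1 : Fin 2) ≠ 0)]
  push_cast
  rw [zero_mul, abs_nonpos_iff]
  ring

theorem pth_u {p q : ℤ} (h : 0 < p ^ 2 + q ^ 2) {M : Mat} (hM : M.det ≠ 0) {r D : ℝ} (hr : Pth p q M r)
    (hD : ((p : ℝ) ^ 2 + (q : ℝ) ^ 2) * |(M.det : ℝ)| ≤ D) (k : ℤ) (hk : |k| ≤ 1)
    (hM' : (M * !![1, k; 0, 1]).det ≠ 0) :
    Pth p q (M * !![1, k; 0, 1]) (r + 3 / 2 * D) := by
  have hN : (0:ℝ) ≤ (p : ℝ) ^ 2 + (q : ℝ) ^ 2 := by positivity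
  have e0 : ∀ i, (M * !![1, k; 0, 1]) i 0 = M i 0 := fun i => by
    simp [Matrix.mul_apply, Fin.sum_univ_two]
  have e1 : ∀ i, (M * !![1, k; 0, 1]) i 1 = k * M i 0 + M i 1 := fun i => by
    simp [Matrix.mul_apply, Fin.sum_univ_two]; ring
  have t0 : tau p q (M * !![1, k; 0, 1]) 0 = tau p q M 0 := by simp only [tau, e0]
  have t1 : tau p q (M * !![1, k; 0, 1]) 1 = k * tau p q M 0 + tau p q M 1 := by
    simp only [tau, e1]; ring
  have b0 : bet p q (M * !![1, k; 0, 1]) 0 = bet p q M 0 := by simp only [bet, e0]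
  have b1 : bet p q (M * !![1, k; 0, 1]) 1 = k * bet p q M 0 + bet p q M 1 := by
    simp only [bet, e1]; ring
  have hb := bet_real h hM
  have hb' := bet_real h hM'
  rw [b0, b1] at hb'
  push_cast at hb'
  have hkr : |(k : ℝ)| ≤ 1 := by exact_mod_cast hk
  have hdet : |(tau p q M 0 : ℝ) * bet p q M 1 - tau p q M 1 * bet p q M 0| ≤ D := by
    rw [tau_bet_real, abs_mul, abs_of_nonneg hN]
    exact hD
  have hD0 : 0 ≤ D := (abs_nonneg _).trans hdet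
  have key := step_bound (tau p q M 0) (tau p q M 1) (bet p q M 0) (bet p q M 1) k r D 1 hkr
    (by linarith) hr hdet one_pos hb'
  unfold Pth
  rw [t0, t1, b0, b1]
  push_cast
  refine key.trans ?_
  apply mul_le_mul_of_nonneg_right _ (by positivity)
  have : 3 / 2 * |(k:ℝ)| * D / 1 ≤ 3 / 2 * D := by
    rw [div_one]
    nlinarith
  linarith

theorem pth_v {p q : ℤ} (h : 0 < p ^ 2 + q ^ 2) {M : Mat} (hM : M.det ≠ 0) {r D : ℝ} (hr : Pth p q M r)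
    (hD : ((p : ℝ) ^ 2 + (q : ℝ) ^ 2) * |(M.det : ℝ)| ≤ D) (k : ℤ) (hk : |k| ≤ 1)
    (hM' : (M * !![1, 0; k, 1]).det ≠ 0) :
    Pth p q (M * !![1, 0; k, 1]) (r + 3 / 2 * D) := by
  have hN : (0:ℝ) ≤ (p : ℝ) ^ 2 + (q : ℝ) ^ 2 := by positivity
  have e0 : ∀ i, (M * !![1, 0; k, 1]) i 0 = k * M i 1 + M i 0 := fun i => by
    simp [Matrix.mul_apply, Fin.sum_univ_two]; ring
  have e1 : ∀ i, (M * !![1, 0; k, 1]) i 1 = M i 1 := fun i => by
    simp [Matrix.mul_apply, Fin.sum_univ_two]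
  have t1 : tau p q (M * !![1, 0; k, 1]) 1 = tau p q M 1 := by simp only [tau, e1]
  have t0 : tau p q (M * !![1, 0; k, 1]) 0 = k * tau p q M 1 + tau p q M 0 := by
    simp only [tau, e0]; ring
  have b1 : bet p q (M * !![1, 0; k, 1]) 1 = bet p q M 1 := by simp only [bet, e1]
  have b0 : bet p q (M * !![1, 0; k, 1]) 0 = k * bet p q M 1 + bet p q M 0 := by
    simp only [bet, e0]; ring
  have hb := bet_real h hM
  have hb' := bet_real h hM'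
  rw [b0, b1] at hb'
  push_cast at hb'
  have hkr : |(k : ℝ)| ≤ 1 := by exact_mod_cast hk
  have hdet : |(tau p q M 1 : ℝ) * bet p q M 0 - tau p q M 0 * bet p q M 1| ≤ D := by
    have := tau_bet_real p q M
    have e : (tau p q M 1 : ℝ) * bet p q M 0 - tau p q M 0 * bet p q M 1 =
        -(((p : ℝ) ^ 2 + (q : ℝ) ^ 2) * (M.det : ℝ)) := by linarith
    rw [e, abs_neg, abs_mul, abs_of_nonneg hN]
    exact hD
  have hD0 : 0 ≤ D := (abs_nonneg _).trans hdet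
  have hr' : |(tau p q M 1 : ℝ) * bet p q M 1 + tau p q M 0 * bet p q M 0| ≤
      r * ((bet p q M 1 : ℝ) ^ 2 + (bet p q M 0 : ℝ) ^ 2) := by
    have := hr
    unfold Pth at this
    rw [add_comm ((tau p q M 1 : ℝ) * bet p q M 1), add_comm ((bet p q M 1 : ℝ) ^ 2)]
    exact this
  have key := step_bound (tau p q M 1) (tau p q M 0) (bet p q M 1) (bet p q M 0) k r D 1 hkr
    (by linarith) hr' hdet one_pos (by linarith)
  unfold Pth
  rw [t0, t1, b0, b1]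
  push_cast
  rw [add_comm (((k:ℝ) * tau p q M 1 + tau p q M 0) * ((k:ℝ) * bet p q M 1 + bet p q M 0)),
    add_comm (((k:ℝ) * bet p q M 1 + bet p q M 0) ^ 2)]
  refine key.trans ?_
  apply mul_le_mul_of_nonneg_right _ (by positivity)
  have : 3 / 2 * |(k:ℝ)| * D / 1 ≤ 3 / 2 * D := by
    rw [div_one]
    nlinarith
  linarith

theorem pth_letter {p q : ℤ} (h : 0 < p ^ 2 + q ^ 2) {M : Mat} (hM : M.det ≠ 0) {r D : ℝ}
    (hr : Pth p q M r) (hD : ((p : ℝ) ^ 2 + (q : ℝ) ^ 2) * |(M.det : ℝ)| ≤ D) (s : Fin 4) :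
    Pth p q (M * letter ℤ s) (r + 3 / 2 * D) := by
  have hM' : (M * letter ℤ s).det ≠ 0 := by rw [Matrix.det_mul, det_letter, mul_one]; exact hM
  have e0 : letter ℤ 0 = !![1, 1; 0, 1] := rfl
  have e1 : letter ℤ 1 = !![1, -1; 0, 1] := rfl
  have e2 : letter ℤ 2 = !![1, 0; 1, 1] := rfl
  have e3 : letter ℤ 3 = !![1, 0; -1, 1] := rfl
  have hs : ∀ s : Fin 4, s = 0 ∨ s = 1 ∨ s = 2 ∨ s = 3 := by decide
  rcases hs s with rfl | rfl | rfl | rfl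
  · rw [e0] at hM' ⊢
    exact pth_u h hM hr hD 1 (by simp) hM'
  · rw [e1] at hM' ⊢
    exact pth_u h hM hr hD (-1) (by simp) hM'
  · rw [e2] at hM' ⊢
    exact pth_v h hM hr hD 1 (by simp) hM'
  · rw [e3] at hM' ⊢
    exact pth_v h hM hr hD (-1) (by simp) hM'

theorem pth_word {p q : ℤ} (h : 0 < p ^ 2 + q ^ 2) {M : Mat} (hM : M.det ≠ 0) {r D : ℝ}
    (hr : Pth p q M r) (hD : ((p : ℝ) ^ 2 + (q : ℝ) ^ 2) * |(M.det : ℝ)| ≤ D) (w : List (Fin 4)) :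
    Pth p q (M * ev ℤ w) (r + 3 / 2 * D * w.length) := by
  induction w using List.reverseRecOn with
  | nil => rw [ev_nil, Matrix.mul_one]; simpa using hr
  | append_singleton w s ih =>
    rw [ev_append, ev_single, ← Matrix.mul_assoc]
    have hdet : (M * ev ℤ w).det = M.det := by rw [Matrix.det_mul, det_ev, mul_one]
    have := pth_letter h (M := M * ev ℤ w) (D := D) (by rw [hdet]; exact hM) ih (by rw [hdet]; exact hD) s
    have e : r + 3 / 2 * D * (w ++ [s]).length = r + 3 / 2 * D * w.length + 3 / 2 * D := by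
      rw [List.length_append, List.length_singleton]
      push_cast
      ring
    rw [e]
    exact this

theorem det_CC (c : ℤ) : (CC ℤ c).det = 4 := by
  simp [CC, Matrix.det_fin_two]

theorem pth_CC {p q : ℤ} (h : 0 < p ^ 2 + q ^ 2) {M : Mat} (hM : M.det = 1) {r : ℝ} (hr : Pth p q M r)
    {c : ℤ} (hc : c = 0 ∨ c = 1) :
    Pth p q (M * CC ℤ c) (r + 3 * ((p : ℝ) ^ 2 + (q : ℝ) ^ 2)) := by
  set N : ℝ := (p : ℝ) ^ 2 + (q : ℝ) ^ 2 with hNdef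
  have hN : (0:ℝ) ≤ N := by positivity
  have hM0 : M.det ≠ 0 := by rw [hM]; norm_num
  have e0 : ∀ i, (M * CC ℤ c) i 0 = 2 * M i 0 := fun i => by
    simp [CC, Matrix.mul_apply, Fin.sum_univ_two]; ring
  have e1 : ∀ i, (M * CC ℤ c) i 1 = c * M i 0 + 2 * M i 1 := fun i => by
    simp [CC, Matrix.mul_apply, Fin.sum_univ_two]; ring
  have t0 : tau p q (M * CC ℤ c) 0 = 2 * tau p q M 0 := by simp only [tau, e0]; ring
  have t1 : tau p q (M * CC ℤ c) 1 = c * tau p q M 0 + 2 * tau p q M 1 := by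
    simp only [tau, e1]; ring
  have b0 : bet p q (M * CC ℤ c) 0 = 2 * bet p q M 0 := by simp only [bet, e0]; ring
  have b1 : bet p q (M * CC ℤ c) 1 = c * bet p q M 0 + 2 * bet p q M 1 := by
    simp only [bet, e1]; ring
  have hM' : (M * CC ℤ c).det ≠ 0 := by rw [Matrix.det_mul, det_CC, hM]; norm_num
  have hb := bet_real h hM0
  have hb' := bet_real h hM'
  rw [b0, b1] at hb'
  push_cast at hb'
  have hc1 : |(c : ℝ) / 2| ≤ 1 / 2 := by
    rcases hc with rfl | rfl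
    · simp
    · norm_num
  have hdet : |(tau p q M 0 : ℝ) * bet p q M 1 - tau p q M 1 * bet p q M 0| ≤ N := by
    rw [tau_bet_real, hM, abs_mul, abs_of_nonneg hN]
    simp
  have key := step_bound (tau p q M 0) (tau p q M 1) (bet p q M 0) (bet p q M 1) (c / 2) r N (1 / 4)
    (hc1.trans (by norm_num)) (by linarith) hr hdet (by norm_num) (by nlinarith)
  unfold Pth
  rw [t0, t1, b0, b1]
  push_cast
  have e : (2 * (tau p q M 0 : ℝ)) * (2 * (bet p q M 0 : ℝ)) +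
      (c * (tau p q M 0 : ℝ) + 2 * tau p q M 1) * (c * (bet p q M 0 : ℝ) + 2 * bet p q M 1) =
      4 * ((tau p q M 0 : ℝ) * bet p q M 0 +
        ((c:ℝ) / 2 * tau p q M 0 + tau p q M 1) * ((c:ℝ) / 2 * bet p q M 0 + bet p q M 1)) := by ring
  have e' : (2 * (bet p q M 0 : ℝ)) ^ 2 + (c * (bet p q M 0 : ℝ) + 2 * bet p q M 1) ^ 2 =
      4 * ((bet p q M 0 : ℝ) ^ 2 + ((c:ℝ) / 2 * bet p q M 0 + bet p q M 1) ^ 2) := by ring
  rw [e, e', abs_mul, abs_of_pos (by norm_num : (0:ℝ) < 4)]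
  have h5 : r + 3 / 2 * |(c:ℝ) / 2| * N / (1 / 4) ≤ r + 3 * N := by
    have : 3 / 2 * |(c:ℝ) / 2| * N / (1 / 4) = 6 * |(c:ℝ) / 2| * N := by ring
    rw [this]
    nlinarith
  have h6 : (0:ℝ) ≤ (bet p q M 0 : ℝ) ^ 2 + ((c:ℝ) / 2 * bet p q M 0 + bet p q M 1) ^ 2 := by positivity
  calc 4 * |(tau p q M 0 : ℝ) * bet p q M 0 +
        ((c:ℝ) / 2 * tau p q M 0 + tau p q M 1) * ((c:ℝ) / 2 * bet p q M 0 + bet p q M 1)|
      ≤ 4 * ((r + 3 / 2 * |(c:ℝ) / 2| * N / (1 / 4)) *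
        ((bet p q M 0 : ℝ) ^ 2 + ((c:ℝ) / 2 * bet p q M 0 + bet p q M 1) ^ 2)) := by linarith
    _ ≤ 4 * ((r + 3 * N) * ((bet p q M 0 : ℝ) ^ 2 + ((c:ℝ) / 2 * bet p q M 0 + bet p q M 1) ^ 2)) := by
        have := mul_le_mul_of_nonneg_right h5 h6
        linarith
    _ = _ := by ring

/-- Unipotents are undistorted. -/
theorem undist {p q : ℤ} (h : 0 < p ^ 2 + q ^ 2) (w1 w2 : List (Fin 4)) {c : ℤ} (hc : c = 0 ∨ c = 1) {L : ℝ}
    (hL : (w1.length : ℝ) + w2.length + 1 ≤ L) :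
    (tau p q (ev ℤ w1 * CC ℤ c * ev ℤ w2) 0 : ℝ) ^ 2 + (tau p q (ev ℤ w1 * CC ℤ c * ev ℤ w2) 1 : ℝ) ^ 2 ≤
      (8 * L * ((p : ℝ) ^ 2 + (q : ℝ) ^ 2)) ^ 2 *
        ((bet p q (ev ℤ w1 * CC ℤ c * ev ℤ w2) 0 : ℝ) ^ 2 + (bet p q (ev ℤ w1 * CC ℤ c * ev ℤ w2) 1 : ℝ) ^ 2) := by
  set N : ℝ := (p : ℝ) ^ 2 + (q : ℝ) ^ 2 with hNdef
  have hN : (0:ℝ) ≤ N := by positivity
  have h1 : Pth p q (1 * ev ℤ w1) (0 + 3 / 2 * N * w1.length) :=
    pth_word h (by simp) (pth_one p q) (by simp [hNdef]) w1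
  rw [Matrix.one_mul, zero_add] at h1
  have h2 := pth_CC h (det_ev ℤ w1) h1 hc
  have hdet2 : (ev ℤ w1 * CC ℤ c).det = 4 := by rw [Matrix.det_mul, det_ev, det_CC, one_mul]
  have h3 : Pth p q (ev ℤ w1 * CC ℤ c * ev ℤ w2) _ :=
    pth_word h (by rw [hdet2]; norm_num) h2 (D := 4 * N) (by rw [hdet2]; push_cast; rw [abs_of_pos (by norm_num : (0:ℝ) < 4)]; linarith) w2
  set M := ev ℤ w1 * CC ℤ c * ev ℤ w2 with hMdef
  have hdet3 : M.det = 4 := by rw [hMdef, Matrix.det_mul, det_ev, hdet2, mul_one]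
  have hb := bet_real (M := M) h (by rw [hdet3]; norm_num)
  have htb := tau_bet_real p q M
  rw [hdet3] at htb
  unfold Pth at h3
  set a : ℝ := (tau p q M 0 : ℝ)
  set b : ℝ := (tau p q M 1 : ℝ)
  set x : ℝ := (bet p q M 0 : ℝ)
  set y : ℝ := (bet p q M 1 : ℝ)
  push_cast at htb
  set r : ℝ := 3 / 2 * N * (w1.length : ℝ) + 3 * N + 3 / 2 * (4 * N) * (w2.length : ℝ) with hr
  have hw1 : (0:ℝ) ≤ w1.length := Nat.cast_nonneg _
  have hw2 : (0:ℝ) ≤ w2.length := Nat.cast_nonneg _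
  have hr0 : 0 ≤ r := by positivity
  have hrL : r ≤ 6 * L * N := by
    have : r ≤ 6 * (w1.length + w2.length + 1) * N := by rw [hr]; nlinarith
    nlinarith
  have hL1 : 1 ≤ L := by linarith
  have hS : 0 < x ^ 2 + y ^ 2 := by linarith
  have hid : (a ^ 2 + b ^ 2) * (x ^ 2 + y ^ 2) = (a * x + b * y) ^ 2 + (a * y - b * x) ^ 2 := by ring
  have h4 : (a * x + b * y) ^ 2 ≤ (r * (x ^ 2 + y ^ 2)) ^ 2 := by
    rw [← sq_abs (a * x + b * y)]
    exact pow_le_pow_left₀ (abs_nonneg _) h3 2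
  have h5 : (a * y - b * x) ^ 2 = (4 * N) ^ 2 := by rw [htb]; ring
  have h6 : (4 * N) ^ 2 ≤ (4 * N) ^ 2 * (x ^ 2 + y ^ 2) ^ 2 := by
    have : 1 ≤ (x ^ 2 + y ^ 2) ^ 2 := one_le_pow₀ hb
    nlinarith [sq_nonneg (4 * N)]
  have h7 : (a ^ 2 + b ^ 2) * (x ^ 2 + y ^ 2) ≤ (r ^ 2 + (4 * N) ^ 2) * (x ^ 2 + y ^ 2) * (x ^ 2 + y ^ 2) := by
    rw [hid, h5]
    nlinarith
  have h8 := le_of_mul_le_mul_right h7 hS
  refine h8.trans (mul_le_mul_of_nonneg_right ?_ hS.le)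
  have h9 : r ^ 2 ≤ (6 * L * N) ^ 2 := pow_le_pow_left₀ hr0 hrL 2
  have h10 : (4 * N) ^ 2 ≤ (4 * L * N) ^ 2 := by
    apply pow_le_pow_left₀ (by positivity)
    nlinarith
  have : (6 * L * N) ^ 2 + (4 * L * N) ^ 2 ≤ (8 * L * N) ^ 2 := by nlinarith [sq_nonneg (L * N)]
  linarith

end Pool.Agent.OW
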