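import Pool.Agent.Lib.MP_55cac8_lc.OWFrame

/-!
# Online schemes
-/

set_option autoImplicit false

namespace Pool.Agent.OW

open Matrix

/-- a step at the two ends of a word -/
def EndStep {r : ℕ} (K : ℕ) (w w' : List (Fin r)) : Prop :=
  ∃ Y a c a' c' : List (Fin r), w = a ++ Y ++ c ∧ w' = a' ++ Y ++ c' ∧
    a.length ≤ K ∧ c.length ≤ K ∧ a'.length ≤ K ∧ c'.length ≤ K

/-- a step at the head of a word with a head -/
def HeadStep {r : ℕ} (K : ℕ) (p p' : List (Fin r) × List (Fin r)) : Prop :=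
  ∃ L R a c a' c' : List (Fin r), p = (L ++ a, c ++ R) ∧ p' = (L ++ a', c' ++ R) ∧
    a.length ≤ K ∧ c.length ≤ K ∧ a'.length ≤ K ∧ c'.length ≤ K

/-- `T j m` is the set of candidates after `j` of `M` digits in base `b` have been read, if these
digits form the number `m`. -/
def Scheme {α : Type} (b M : ℕ) (c : ℝ) (init : α → Prop) (step : α → α → Prop)
    (T : ℕ → ℕ → Finset α) : Prop :=
  (∀ p ∈ T 0 0, init p) ∧ ∀ j m : ℕ, j ≤ M → m < b ^ j →
    ((T j m).card : ℝ) ≤ c ∧ (1 ≤ j → ∀ p' ∈ T j m, ∃ p ∈ T (j - 1) (m / b), step p p')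

theorem div_lt_pow {b M i n : ℕ} (hi : i ≤ M) (hn : n < b ^ M) : n / b ^ i < b ^ (M - i) := by
  apply Nat.div_lt_of_lt_mul
  rw [← pow_add]
  rwa [Nat.add_sub_cancel' hi]

theorem chain {α : Type} {b M : ℕ} {c : ℝ} {init : α → Prop} {step : α → α → Prop}
    {T : ℕ → ℕ → Finset α} (h : Scheme b M c init step T) (Rel : ℕ → α → α → Prop)
    (h0 : ∀ p, Rel 0 p p) (hs : ∀ i p p' q, step p p' → Rel i p' q → Rel (i + 1) p q)
    {n : ℕ} (hn : n < b ^ M) {q : α} (hq : q ∈ T M n) :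
    ∀ i, i ≤ M → ∃ p ∈ T (M - i) (n / b ^ i), Rel i p q := by
  intro i
  induction i with
  | zero =>
    intro _
    exact ⟨q, by simpa using hq, h0 q⟩
  | succ i ih =>
    intro hi
    obtain ⟨p', hp', hr⟩ := ih (by omega)
    obtain ⟨p, hp, hst⟩ := (h.2 (M - i) (n / b ^ i) (by omega) (div_lt_pow (by omega) hn)).2
      (by omega) p' hp'
    refine ⟨p, ?_, hs i p p' q hst hr⟩
    have e1 : n / b ^ (i + 1) = n / b ^ i / b := by rw [Nat.div_div_eq_div_mul, pow_succ]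
    have e2 : M - (i + 1) = M - i - 1 := by omega
    rw [e1, e2]
    exact hp

theorem length_bound {α : Type} {b M : ℕ} {c : ℝ} {init : α → Prop} {step : α → α → Prop}
    {T : ℕ → ℕ → Finset α} (h : Scheme b M c init step T) (len : α → ℕ) (L₀ d : ℕ)
    (h0 : ∀ p, init p → len p ≤ L₀) (hs : ∀ p p', step p p' → len p' ≤ len p + d) :
    ∀ j, j ≤ M → ∀ m, m < b ^ j → ∀ p ∈ T j m, len p ≤ L₀ + d * j := by
  intro j
  induction j with
  | zero =>
    intro _ m hm p hp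
    have : m = 0 := by simpa using hm
    subst this
    simpa using h0 p (h.1 p hp)
  | succ j ih =>
    intro hj m hm p' hp'
    obtain ⟨p, hp, hst⟩ := (h.2 (j + 1) m hj hm).2 (by omega) p' hp'
    have h1 := ih (by omega) (m / b) (Nat.div_lt_of_lt_mul (by rw [pow_succ'] at hm; exact hm)) p
      (by simpa using hp)
    have h2 := hs p p' hst
    calc len p' ≤ len p + d := h2
      _ ≤ L₀ + d * j + d := by omega
      _ = L₀ + d * (j + 1) := by ring

theorem count {α : Type} {b M k D : ℕ} (T : ℕ → Finset α) {c x₁ : ℝ} (hb : 1 ≤ b) (hk : k ≤ M)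
    (hT : ∀ m, m < b ^ (M - k) → ((T m).card : ℝ) ≤ c) (P : α → ℕ → Prop) (hx₁ : 0 ≤ x₁)
    (hP : ∀ m, m < b ^ (M - k) → x₁ ≤ (m : ℝ) * b ^ k → ∀ p ∈ T m, ∀ G : Set ℕ,
      (∀ n ∈ G, n / b ^ k = m ∧ P p n) → G.ncard ≤ D)
    (G : Set ℕ) (hG : ∀ n ∈ G, n < b ^ M ∧ ∃ p ∈ T (n / b ^ k), P p n) :
    (G.ncard : ℝ) ≤ x₁ + b ^ k + 1 + b ^ (M - k) * (c * D) := by
  classical
  have hbk : 0 < b ^ k := pow_pos hb k
  have hfin : G.Finite := (Set.finite_Iio (b ^ M)).subset fun n hn => (hG n hn).1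
  set G1 : Finset ℕ := Finset.range (⌊x₁ + b ^ k⌋₊ + 1) with hG1
  set F : ℕ → α → Finset ℕ := fun m p =>
    if x₁ ≤ (m : ℝ) * b ^ k then (Finset.range (b ^ M)).filter (fun n => n / b ^ k = m ∧ P p n) else ∅ with hF
  set G2 : Finset ℕ := (Finset.range (b ^ (M - k))).biUnion (fun m => (T m).biUnion (F m)) with hG2
  have hsub : hfin.toFinset ⊆ G1 ∪ G2 := by
    intro n hn
    have hn' : n ∈ G := by simpa using hn
    obtain ⟨h1, p, hp, hPn⟩ := hG n hn'
    rw [Finset.mem_union]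
    by_cases hc : x₁ ≤ ((n / b ^ k : ℕ) : ℝ) * b ^ k
    · right
      rw [hG2, Finset.mem_biUnion]
      refine ⟨n / b ^ k, Finset.mem_range.2 (div_lt_pow hk h1), ?_⟩
      rw [Finset.mem_biUnion]
      refine ⟨p, hp, ?_⟩
      rw [hF]
      simp only [hc, if_true]
      rw [Finset.mem_filter]
      exact ⟨Finset.mem_range.2 h1, rfl, hPn⟩
    · left
      rw [hG1, Finset.mem_range]
      apply Nat.lt_succ_of_le
      apply Nat.le_floor
      push Not at hc
      have h2 : n < (n / b ^ k) * b ^ k + b ^ k := by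
        have := Nat.lt_div_mul_add (a := n) hbk
        exact this
      have h3 : (n : ℝ) < ((n / b ^ k : ℕ) : ℝ) * b ^ k + b ^ k := by exact_mod_cast h2
      linarith
  have hcard : G.ncard ≤ G1.card + G2.card := by
    rw [Set.ncard_eq_toFinset_card G hfin]
    exact (Finset.card_le_card hsub).trans (Finset.card_union_le _ _)
  have h1 : (G1.card : ℝ) ≤ x₁ + b ^ k + 1 := by
    rw [hG1, Finset.card_range]
    push_cast
    have := Nat.floor_le (show 0 ≤ x₁ + (b:ℝ) ^ k by positivity)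
    linarith
  have h2 : (G2.card : ℝ) ≤ b ^ (M - k) * (c * D) := by
    have h3 : (G2.card : ℝ) ≤ ∑ m ∈ Finset.range (b ^ (M - k)), (c * D) := by
      have h4 : G2.card ≤ ∑ m ∈ Finset.range (b ^ (M - k)), ((T m).biUnion (F m)).card :=
        Finset.card_biUnion_le
      have h5 : (G2.card : ℝ) ≤ ∑ m ∈ Finset.range (b ^ (M - k)), (((T m).biUnion (F m)).card : ℝ) := by
        exact_mod_cast h4
      refine h5.trans (Finset.sum_le_sum fun m hm => ?_)
      have hm' := Finset.mem_range.1 hm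
      have h6 : ((T m).biUnion (F m)).card ≤ (T m).card * D := by
        apply Finset.card_biUnion_le_card_mul
        intro p hp
        rw [hF]
        by_cases hc : x₁ ≤ (m : ℝ) * b ^ k
        · simp only [hc, if_true]
          rw [← Set.ncard_coe_finset]
          apply hP m hm' hc p hp
          intro n hn
          have hn2 : n ∈ (Finset.range (b ^ M)).filter (fun n => n / b ^ k = m ∧ P p n) := by
            exact_mod_cast hn
          exact (Finset.mem_filter.1 hn2).2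
        · simp only [hc, if_false]
          simp
      have h7 : (((T m).biUnion (F m)).card : ℝ) ≤ (T m).card * D := by exact_mod_cast h6
      exact h7.trans (mul_le_mul_of_nonneg_right (hT m hm') (Nat.cast_nonneg _))
    rw [Finset.sum_const, Finset.card_range, nsmul_eq_mul] at h3
    push_cast at h3
    exact h3
  have h3 : (G.ncard : ℝ) ≤ (G1.card : ℝ) + G2.card := by exact_mod_cast hcard
  linarith

/-- the final numerical estimate -/
theorem num_final {b M k D : ℕ} {κ x₀ : ℝ} (hb : 2 ≤ b) (hκ : 0 < κ) (hκ1 : κ ≤ 1 / 24) (hx₀ : 0 ≤ x₀)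
    (hk : (k : ℝ) ≤ κ * M) (hk' : κ * M < k + 1) (hkM : k ≤ M) :
    (x₀ + (b:ℝ) ^ ((M:ℝ) / 2)) + (b:ℝ) ^ k + 1 + (b:ℝ) ^ (M - k) * ((b:ℝ) ^ (κ / 3 * M) * D) ≤
      (x₀ + 3 + D * b) * (b:ℝ) ^ ((1 - κ / 3) * M) := by
  have hb1 : (1:ℝ) ≤ b := by exact_mod_cast (by omega : 1 ≤ b)
  have hb0 : (0:ℝ) < b := by linarith
  have hM : (0:ℝ) ≤ M := Nat.cast_nonneg _
  have hκM : κ * M ≤ 1 / 24 * M := mul_le_mul_of_nonneg_right hκ1 hM
  set Y : ℝ := (b:ℝ) ^ ((1 - κ / 3) * M) with hY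
  have hY1 : 1 ≤ Y := Real.one_le_rpow hb1 (by nlinarith)
  have h1 : (b:ℝ) ^ ((M:ℝ) / 2) ≤ Y := Real.rpow_le_rpow_of_exponent_le hb1 (by nlinarith)
  have h2 : (b:ℝ) ^ k ≤ Y := by
    rw [← Real.rpow_natCast]
    exact Real.rpow_le_rpow_of_exponent_le hb1 (by nlinarith)
  have h3 : (b:ℝ) ^ (M - k) * (b:ℝ) ^ (κ / 3 * M) ≤ b * Y := by
    have e1 : (b:ℝ) ^ (M - k) = (b:ℝ) ^ ((M:ℝ) - k) := by
      rw [← Real.rpow_natCast]
      congr 1
      push_cast [Nat.cast_sub hkM]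
      ring
    have e2 : (b:ℝ) * Y = (b:ℝ) ^ (1 + (1 - κ / 3) * M) := by
      rw [Real.rpow_add hb0, Real.rpow_one]
    rw [e1, e2, ← Real.rpow_add hb0]
    apply Real.rpow_le_rpow_of_exponent_le hb1
    nlinarith
  have hD : (0:ℝ) ≤ D := Nat.cast_nonneg _
  have h4 : (b:ℝ) ^ (M - k) * ((b:ℝ) ^ (κ / 3 * M) * D) ≤ D * b * Y := by
    calc (b:ℝ) ^ (M - k) * ((b:ℝ) ^ (κ / 3 * M) * D) = ((b:ℝ) ^ (M - k) * (b:ℝ) ^ (κ / 3 * M)) * D := by ring
      _ ≤ (b * Y) * D := mul_le_mul_of_nonneg_right h3 hD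
      _ = _ := by ring
  have h5 : x₀ ≤ x₀ * Y := le_mul_of_one_le_right hx₀ hY1
  nlinarith

theorem ev_inv_left {a Y c : List (Fin 4)} :
    ev ℤ Y = ev ℤ (iv a) * ev ℤ (a ++ Y ++ c) * ev ℤ (iv c) := by
  rw [ev_append, ev_append]
  calc ev ℤ Y = (ev ℤ (iv a) * ev ℤ a) * ev ℤ Y * (ev ℤ c * ev ℤ (iv c)) := by
        rw [ev_iv_mul, ev_mul_iv, Matrix.one_mul, Matrix.mul_one]
    _ = _ := by simp only [Matrix.mul_assoc]

theorem ev_le {w : List (Fin 4)} (i j : Fin 2) : |(ev ℤ w i j : ℝ)| ≤ tht ^ w.length := by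
  obtain ⟨h0, h1, -⟩ := ev_bd w i
  rcases (by decide : ∀ k : Fin 2, k = 0 ∨ k = 1) j with rfl | rfl
  · exact h0
  · exact h1

/-- what is needed about a block -/
theorem block_num {b K M k m : ℕ} {κ δ x₀ : ℝ} (hb : 2 ≤ b) (hδ : 0 < δ)
    (hκ1 : κ ≤ δ / 2) (hκ2 : κ ≤ 1 / (24 * ((K : ℝ) + 1))) (hx₀ : 0 ≤ x₀)
    (hk : (k : ℝ) ≤ κ * M) (hm : x₀ + (b:ℝ) ^ ((M:ℝ) / 2) ≤ (m : ℝ) * b ^ k) :
    x₀ ≤ (m : ℝ) * b ^ k ∧ (b : ℝ) ^ k ≤ ((m : ℝ) * b ^ k) ^ δ ∧
      (3 * K * M : ℝ) ≤ (9 * K : ℕ) * Real.log ((m : ℝ) * b ^ k) ∧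
      tht ^ (4 * K * k) ≤ ((m : ℝ) * b ^ k) ^ ((1:ℝ) / 2 - 1 / 4) := by
  have hb2 : (2:ℝ) ≤ b := by exact_mod_cast hb
  have hb1 : (1:ℝ) ≤ b := by linarith
  have hb0 : (0:ℝ) < b := by linarith
  have hM : (0:ℝ) ≤ M := Nat.cast_nonneg _
  have hK : (0:ℝ) ≤ K := Nat.cast_nonneg _
  set x : ℝ := (m : ℝ) * b ^ k with hx
  have hp : 0 < (b:ℝ) ^ ((M:ℝ) / 2) := Real.rpow_pos_of_pos hb0 _
  have hx1 : (b:ℝ) ^ ((M:ℝ) / 2) ≤ x := by linarith
  have hx0 : 0 < x := by linarith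
  have hlog : (M:ℝ) / 2 * 0.6931471803 ≤ Real.log x := by
    calc (M:ℝ) / 2 * 0.6931471803 ≤ (M:ℝ) / 2 * Real.log b := by
          apply mul_le_mul_of_nonneg_left _ (by positivity)
          exact Real.log_two_gt_d9.le.trans (Real.log_le_log (by norm_num) hb2)
      _ = Real.log ((b:ℝ) ^ ((M:ℝ) / 2)) := (Real.log_rpow hb0 _).symm
      _ ≤ Real.log x := Real.log_le_log hp hx1
  refine ⟨by linarith, ?_, ?_, ?_⟩
  · calc (b:ℝ) ^ k = (b:ℝ) ^ (k:ℝ) := (Real.rpow_natCast _ _).symm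
      _ ≤ (b:ℝ) ^ ((M:ℝ) / 2 * δ) := by
          apply Real.rpow_le_rpow_of_exponent_le hb1
          calc (k:ℝ) ≤ κ * M := hk
            _ ≤ δ / 2 * M := mul_le_mul_of_nonneg_right hκ1 hM
            _ = _ := by ring
      _ = ((b:ℝ) ^ ((M:ℝ) / 2)) ^ δ := Real.rpow_mul hb0.le _ _
      _ ≤ x ^ δ := Real.rpow_le_rpow hp.le hx1 hδ.le
  · push_cast
    have := mul_le_mul_of_nonneg_left hlog (by positivity : (0:ℝ) ≤ 9 * K)
    nlinarith [mul_nonneg hK hM]
  · have h1 : ((4 * K * k : ℕ) : ℝ) ≤ 25 / 49 * Real.log x := by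
      push_cast
      have h2 : (4 * K * k : ℝ) ≤ 4 * K * (1 / (24 * ((K:ℝ) + 1)) * M) := by
        apply mul_le_mul_of_nonneg_left _ (by positivity)
        exact hk.trans (mul_le_mul_of_nonneg_right hκ2 hM)
      have h3 : 4 * (K:ℝ) * (1 / (24 * ((K:ℝ) + 1)) * M) ≤ 1 / 6 * M := by
        have h4 : 4 * (K:ℝ) * (1 / (24 * ((K:ℝ) + 1))) ≤ 1 / 6 := by
          rw [mul_one_div, div_le_iff₀ (by positivity)]
          linarith
        calc 4 * (K:ℝ) * (1 / (24 * ((K:ℝ) + 1)) * M) = 4 * (K:ℝ) * (1 / (24 * ((K:ℝ) + 1))) * M := by ring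
          _ ≤ 1 / 6 * M := mul_le_mul_of_nonneg_right h4 hM
      linarith
    refine (tht_pow_le hx0 h1).trans (le_of_eq ?_)
    norm_num

theorem kfloor {κ : ℝ} (hκ : 0 < κ) (hκ1 : κ ≤ 1 / 24) (M : ℕ) :
    ∃ k : ℕ, (k : ℝ) ≤ κ * M ∧ κ * M < k + 1 ∧ k ≤ M := by
  have hM : (0:ℝ) ≤ M := Nat.cast_nonneg _
  have h1 : (⌊κ * M⌋₊ : ℝ) ≤ κ * M := Nat.floor_le (by positivity)
  refine ⟨⌊κ * M⌋₊, h1, Nat.lt_floor_add_one _, ?_⟩
  have : (⌊κ * M⌋₊ : ℝ) ≤ M := h1.trans (by nlinarith)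
  exact_mod_cast this

/-- **No online scheme, at the ends or at a head.** -/
theorem no_scheme (b K : ℕ) (hb : 2 ≤ b) :
    ∃ δ : ℝ, 0 < δ ∧ ∃ C : ℝ, ∀ M : ℕ,
      (∀ T : ℕ → ℕ → Finset (List (Fin 4)),
        Scheme b M ((b:ℝ) ^ (δ * M)) (fun w => w.length ≤ K * M) (EndStep K) T →
        ∀ G : Set ℕ, (∀ n ∈ G, n < b ^ M ∧ Odd n ∧ ∃ w ∈ T M n, isU n (ev (ZMod n) w)) →
        (G.ncard : ℝ) ≤ C * (b:ℝ) ^ ((1 - δ) * M)) ∧
      (∀ T : ℕ → ℕ → Finset (List (Fin 4) × List (Fin 4)),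
        Scheme b M ((b:ℝ) ^ (δ * M)) (fun p => p.1.length + p.2.length ≤ K * M) (HeadStep K) T →
        ∀ G : Set ℕ, (∀ n ∈ G, n < b ^ M ∧ Odd n ∧ ∃ p ∈ T M n, isU n (ev (ZMod n) (p.1 ++ p.2))) →
        (G.ncard : ℝ) ≤ C * (b:ℝ) ^ ((1 - δ) * M)) := by
  obtain ⟨δ, hδ, x₀, hx₀1, H⟩ := frames (9 * K) (ε := 1 / 4) (by norm_num) (by norm_num)
  have hx₀ : 0 ≤ x₀ := by linarith
  set κ : ℝ := min (δ / 2) (1 / (24 * ((K : ℝ) + 1))) with hκ
  have hκ0 : 0 < κ := by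
    rw [hκ]; exact lt_min (by positivity) (by positivity)
  have hκ1 : κ ≤ δ / 2 := min_le_left _ _
  have hκ2 : κ ≤ 1 / (24 * ((K : ℝ) + 1)) := min_le_right _ _
  have hκ3 : κ ≤ 1 / 24 := by
    refine hκ2.trans ?_
    apply one_div_le_one_div_of_le (by norm_num)
    have : (0:ℝ) ≤ K := Nat.cast_nonneg _
    linarith
  refine ⟨κ / 3, by positivity, x₀ + 3 + (9 * K / 2 : ℕ) * b, fun M => ?_⟩
  obtain ⟨k, hk, hk', hkM⟩ := kfloor hκ0 hκ3 M
  have hb0 : (0:ℝ) < b := by exact_mod_cast (by omega : 0 < b)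
  have hx₁ : 0 ≤ x₀ + (b:ℝ) ^ ((M:ℝ) / 2) := by positivity
  have hbk : 0 < b ^ k := pow_pos (by omega) k
  constructor
  · intro T hT G hG
    refine le_trans ?_ (num_final (D := 9 * K / 2) hb hκ0 hκ3 hx₀ hk hk' hkM)
    have key := count (b := b) (M := M) (k := k) (D := 9 * K / 2) (T (M - k)) (c := (b:ℝ) ^ (κ / 3 * M))
      (x₁ := x₀ + (b:ℝ) ^ ((M:ℝ) / 2)) (by omega) hkM
      (fun m hm => (hT.2 (M - k) m (by omega) hm).1)
      (fun w n => Odd n ∧ ∃ A B : Mat, A.det = 1 ∧ B.det = 1 ∧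
        (∀ i j k' l, |(A i j : ℝ)| * |(B k' l : ℝ)| ≤ tht ^ (4 * K * k)) ∧
        isU n (red n A * ev (ZMod n) w * red n B)) hx₁ ?_ G ?_
    · convert key using 2
    · intro m hm hxm w hw G' hG'
      obtain ⟨h1, h2, h3, h4⟩ := block_num (K := K) hb hδ hκ1 hκ2 hx₀ hk hxm
      refine ((H _ h1).2 w ?_ G' ?_).2
      · have hl := length_bound hT List.length (K * M) (2 * K) (fun p hp => hp) ?_ (M - k)
          (by omega) m hm w hw
        · have hl2 : w.length ≤ 3 * K * M := by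
            have : 2 * K * (M - k) ≤ 2 * K * M := Nat.mul_le_mul_left _ (by omega)
            nlinarith
          have hl3 : (w.length : ℝ) ≤ 3 * K * M := by exact_mod_cast hl2
          linarith
        · rintro p p' ⟨Y, a, c, a', c', rfl, rfl, ha, hc, ha', hc'⟩
          simp only [List.length_append]
          omega
      · intro n hn
        obtain ⟨hnm, hodd, A, B, hA, hB, hAB, hU⟩ := hG' n hn
        have hn1 : m * b ^ k ≤ n := by rw [← hnm]; exact Nat.div_mul_le_self _ _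
        have hn2 : n < m * b ^ k + b ^ k := by rw [← hnm]; exact Nat.lt_div_mul_add hbk
        have hn1' : (m:ℝ) * b ^ k ≤ n := by exact_mod_cast hn1
        have hn2' : (n:ℝ) < (m:ℝ) * b ^ k + b ^ k := by exact_mod_cast hn2
        exact ⟨hodd, hn1', by linarith, A, B, hA, hB, fun i j k' l => (hAB i j k' l).trans h4, hU⟩
    · intro n hn
      obtain ⟨hnM, hodd, w, hw, hU⟩ := hG n hn
      refine ⟨hnM, ?_⟩
      obtain ⟨p, hp, A, B, hA, hB, hev⟩ := chain hT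
        (fun i p q => ∃ A B : List (Fin 4), A.length ≤ 2 * K * i ∧ B.length ≤ 2 * K * i ∧
          ev ℤ q = ev ℤ A * ev ℤ p * ev ℤ B)
        (fun p => ⟨[], [], by simp, by simp, by rw [ev_nil, Matrix.one_mul, Matrix.mul_one]⟩)
        (by
          rintro i p p' q ⟨Y, a, c, a', c', rfl, rfl, ha, hc, ha', hc'⟩ ⟨A, B, hA, hB, hq⟩
          refine ⟨A ++ a' ++ iv a, iv c ++ c' ++ B, ?_, ?_, ?_⟩
          · simp only [List.length_append, iv_length]
            nlinarith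
          · simp only [List.length_append, iv_length]
            nlinarith
          · rw [hq]
            simp only [ev_append]
            have h1 : ev ℤ Y = ev ℤ (iv a) * (ev ℤ a * ev ℤ Y * ev ℤ c) * ev ℤ (iv c) := by
              have := ev_inv_left (a := a) (Y := Y) (c := c)
              rwa [ev_append, ev_append] at this
            conv_lhs => rw [h1]
            simp only [Matrix.mul_assoc])
        hnM hw k hkM
      refine ⟨p, hp, hodd, ev ℤ A, ev ℤ B, det_ev _ _, det_ev _ _, ?_, ?_⟩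
      · intro i j k' l
        calc |(ev ℤ A i j : ℝ)| * |(ev ℤ B k' l : ℝ)| ≤ tht ^ A.length * tht ^ B.length :=
              mul_le_mul (ev_le i j) (ev_le k' l) (abs_nonneg _) (pow_pos tht_pos _).le
          _ = tht ^ (A.length + B.length) := (pow_add _ _ _).symm
          _ ≤ tht ^ (4 * K * k) := pow_le_pow_right₀ tht_one (by nlinarith)
      · rw [← red_ev, ← map_mul, ← map_mul, ← hev, red_ev]
        exact hU
  · intro T hT G hG
    refine le_trans ?_ (num_final (D := 9 * K / 2) hb hκ0 hκ3 hx₀ hk hk' hkM)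
    have key := count (b := b) (M := M) (k := k) (D := 9 * K / 2) (T (M - k)) (c := (b:ℝ) ^ (κ / 3 * M))
      (x₁ := x₀ + (b:ℝ) ^ ((M:ℝ) / 2)) (by omega) hkM
      (fun m hm => (hT.2 (M - k) m (by omega) hm).1)
      (fun p n => Odd n ∧ ∃ V : Mat, Bd V (tht ^ (4 * K * k)) ∧
        isU n (ev (ZMod n) p.1 * red n V * ev (ZMod n) p.2)) hx₁ ?_ G ?_
    · convert key using 2
    · intro m hm hxm w hw G' hG'
      obtain ⟨h1, h2, h3, h4⟩ := block_num (K := K) hb hδ hκ1 hκ2 hx₀ hk hxm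
      refine ((H _ h1).1 w.1 w.2 ?_ G' ?_).2
      · have hl := length_bound hT (fun p : List (Fin 4) × List (Fin 4) => p.1.length + p.2.length)
          (K * M) (2 * K) (fun p hp => hp) ?_ (M - k) (by omega) m hm w hw
        · have hl2 : w.1.length + w.2.length ≤ 3 * K * M := by
            have : 2 * K * (M - k) ≤ 2 * K * M := Nat.mul_le_mul_left _ (by omega)
            nlinarith
          have hl3 : (w.1.length : ℝ) + w.2.length ≤ 3 * K * M := by exact_mod_cast hl2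
          linarith
        · rintro p p' ⟨L, R, a, c, a', c', rfl, rfl, ha, hc, ha', hc'⟩
          simp only [List.length_append]
          omega
      · intro n hn
        obtain ⟨hnm, hodd, V, hV, hU⟩ := hG' n hn
        have hn1 : m * b ^ k ≤ n := by rw [← hnm]; exact Nat.div_mul_le_self _ _
        have hn2 : n < m * b ^ k + b ^ k := by rw [← hnm]; exact Nat.lt_div_mul_add hbk
        have hn1' : (m:ℝ) * b ^ k ≤ n := by exact_mod_cast hn1
        have hn2' : (n:ℝ) < (m:ℝ) * b ^ k + b ^ k := by exact_mod_cast hn2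
        exact ⟨hodd, hn1', by linarith, V, fun i j => (hV i j).trans h4, hU⟩
    · intro n hn
      obtain ⟨hnM, hodd, w, hw, hU⟩ := hG n hn
      refine ⟨hnM, ?_⟩
      obtain ⟨p, hp, A, B, hA, hB, hev1, hev2⟩ := chain hT
        (fun i p q => ∃ A B : List (Fin 4), A.length ≤ 2 * K * i ∧ B.length ≤ 2 * K * i ∧
          ev ℤ q.1 = ev ℤ p.1 * ev ℤ A ∧ ev ℤ q.2 = ev ℤ B * ev ℤ p.2)
        (fun p => ⟨[], [], by simp, by simp, by rw [ev_nil, Matrix.mul_one], by rw [ev_nil, Matrix.one_mul]⟩)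
        (by
          rintro i p p' q ⟨L, R, a, c, a', c', rfl, rfl, ha, hc, ha', hc'⟩ ⟨A, B, hA, hB, hq1, hq2⟩
          refine ⟨iv a ++ a' ++ A, B ++ c' ++ iv c, ?_, ?_, ?_, ?_⟩
          · simp only [List.length_append, iv_length]
            nlinarith
          · simp only [List.length_append, iv_length]
            nlinarith
          · rw [hq1]
            simp only [ev_append]
            calc ev ℤ L * ev ℤ a' * ev ℤ A = ev ℤ L * (ev ℤ a * ev ℤ (iv a)) * ev ℤ a' * ev ℤ A := by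
                  rw [ev_mul_iv, Matrix.mul_one]
              _ = _ := by simp only [Matrix.mul_assoc]
          · rw [hq2]
            simp only [ev_append]
            calc ev ℤ B * (ev ℤ c' * ev ℤ R) = ev ℤ B * (ev ℤ c' * ((ev ℤ (iv c) * ev ℤ c) * ev ℤ R)) := by
                  rw [ev_iv_mul, Matrix.one_mul]
              _ = _ := by simp only [Matrix.mul_assoc])
        hnM hw k hkM
      refine ⟨p, hp, hodd, ev ℤ (A ++ B), ?_, ?_⟩
      · intro i j
        refine (ev_le i j).trans (pow_le_pow_right₀ tht_one ?_)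
        rw [List.length_append]
        nlinarith
      · have e1 : ev (ZMod n) p.1 * red n (ev ℤ (A ++ B)) * ev (ZMod n) p.2 = ev (ZMod n) (w.1 ++ w.2) := by
          rw [← red_ev, ← red_ev, ← red_ev, ← map_mul, ← map_mul, ev_append ℤ w.1, hev1, hev2, ev_append]
          simp only [Matrix.mul_assoc]
        rw [e1]
        exact hU

end Pool.Agent.OW
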